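import Pool.Graph.R_pool_sql_team_seeded_3997aac3.Q57.MD.SW
import Pool.Agent.H1.TB.CG

set_option autoImplicit false
set_option linter.unusedSectionVars false
set_option linter.unusedVariables false

/-! # The jets on which a polynomial has a given order and the angular component one -/

namespace Pool.Agent.H1.TG

open MvPolynomial Pool.Agent.W428.MOT Pool.Agent.TH192.MT Pool.Agent.TH192.DT Pool.Agent.Q49.CO
open Pool.Agent.Q57.MD (CT constr_CT upz dnz ar_up aeval_HT HT)

variable {K : Type} [Field K] {σ : Type}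

/-- the jets on which `f` has the order `N` and the angular component `1` -/
def JO (f : MvPolynomial σ K) (W : Set (Pt K σ)) (N m : ℕ) : Set (Pt K (σ × Fin (m + 1))) :=
  {z | (fun i => z (i, 0)) ∈ W ∧ Vn N (aeval (ar z) f) ∧
    PowerSeries.coeff N (aeval (ar z) f) = 1}

theorem constr_JO (f : MvPolynomial σ K) {W : Set (Pt K σ)} (hW : Constr W) (N m : ℕ) :
    Constr (JO f W N m) := by
  refine Constr.and (hW.preimage (fun (z : Pt K (σ × Fin (m + 1))) (i : σ) => z (i, 0))
    fun i => IsPF.coord _) (Constr.and (Constr.allLt _ fun k _ => Constr.eqz ?_) ?_)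
  · exact pf_coeffK (fun z => z) (fun i => IsPF.coord _) _ _
  · have h := Constr.eq (pf_coeffK (fun z : Pt K (σ × Fin (m + 1)) => z)
      (fun i => IsPF.coord _) f N) (IsPF.const (1 : K))
    simp only [map_one] at h
    exact h

variable {R : Type} [CommRing R] (M : Meas K R) [Fintype σ]

theorem chi_levO (f : MvPolynomial σ K) {W : Set (Pt K σ)} (hW : Constr W) (N m : ℕ)
    (hN : N ≤ m) :
    M.χ _ (JO f W N (m + 1)) = M.χ _ (JO f W N m) * M.L ^ Fintype.card σ := by
  refine chi_split M (eL σ m) _ _ (constr_JO f hW N m) fun z => ?_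
  have h1 : ∀ i, Cg m (ar z i) (ar (N := m) (fun x => z (eL σ m (Sum.inl x))) i) := by
    intro i k hk
    rw [coeff_ar, coeff_ar, dif_pos (by omega), dif_pos (by omega)]
    rfl
  have h2 := cg_aevalK f m _ _ h1
  refine and_congr Iff.rfl (and_congr (vn_congr' h2 (by omega)) ?_)
  rw [h2 N hN]

variable (v : R)

/-- the normalised volume -/
noncomputable def ovol (f : MvPolynomial σ K) (W : Set (Pt K σ)) (N : ℕ) : R :=
  M.χ _ (JO f W N N) * v ^ (Fintype.card σ * (N + 1))

/-- the series of the volumes -/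
noncomputable def OW (f : MvPolynomial σ K) (W : Set (Pt K σ)) : PowerSeries R :=
  PowerSeries.mk fun N => ovol M v f W N

theorem coeff_OW (f : MvPolynomial σ K) (W : Set (Pt K σ)) (N : ℕ) :
    PowerSeries.coeff N (OW M v f W) = ovol M v f W N := PowerSeries.coeff_mk _ _

variable {v}

theorem ovol_eq (hv : M.L * v = 1) (f : MvPolynomial σ K) {W : Set (Pt K σ)} (hW : Constr W)
    (N m : ℕ) (hN : N ≤ m) :
    M.χ _ (JO f W N m) * v ^ (Fintype.card σ * (m + 1)) = ovol M v f W N := by
  obtain ⟨k, rfl⟩ := Nat.exists_eq_add_of_le hN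
  clear hN
  induction k with
  | zero => rfl
  | succ k ih =>
    rw [← ih]
    have h2 : N + (k + 1) = (N + k) + 1 := by ring
    rw [h2, chi_levO M f hW N (N + k) (by omega), mul_add (Fintype.card σ) (N + k + 1) 1, pow_add,
      mul_one]
    have h3 : M.L ^ Fintype.card σ * v ^ Fintype.card σ = 1 := by rw [← mul_pow, hv, one_pow]
    linear_combination (M.χ _ (JO f W N (N + k)) * v ^ (Fintype.card σ * (N + k + 1))) * h3

theorem ovol_add (f : MvPolynomial σ K) {W W' : Set (Pt K σ)} (hW : Constr W)
    (hW' : Constr W') (hd : Disjoint W W') (N : ℕ) :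
    ovol M v f (W ∪ W') N = ovol M v f W N + ovol M v f W' N := by
  have h1 : JO f (W ∪ W') N N = JO f W N N ∪ JO f W' N N := by
    ext z
    simp only [JO, Set.mem_union, Set.mem_ofPred_eq]
    rw [or_and_right]
  have h2 : Disjoint (JO f W N N) (JO f W' N N) := by
    rw [Set.disjoint_left] at hd ⊢
    intro z hz hz'
    exact hd hz.1 hz'.1
  unfold ovol
  rw [h1, M.add _ _ (constr_JO f hW _ _) (constr_JO f hW' _ _) h2, add_mul]

theorem OW_add (f : MvPolynomial σ K) {W W' : Set (Pt K σ)} (hW : Constr W)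
    (hW' : Constr W') (hd : Disjoint W W') :
    OW M v f (W ∪ W') = OW M v f W + OW M v f W' := by
  ext N
  rw [map_add, coeff_OW, coeff_OW, coeff_OW, ovol_add M f hW hW' hd]

theorem OW_empty (f : MvPolynomial σ K) : OW M v f ∅ = 0 := by
  ext N
  rw [coeff_OW, map_zero]
  have h1 : JO f ∅ N N = ∅ := by
    rw [Set.eq_empty_iff_forall_notMem]
    intro z hz
    exact hz.1
  unfold ovol
  rw [h1, Pool.Agent.W375.MT.chi_empty, zero_mul]

/-- away from the zeros -/
theorem OW_off (f : MvPolynomial σ K) {W : Set (Pt K σ)}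
    (h : ∀ w ∈ W, aeval w f ≠ 0) : OW M v f W = PowerSeries.C (ovol M v f W 0) := by
  ext N
  rw [coeff_OW, PowerSeries.coeff_C]
  rcases N with _ | N
  · rw [if_pos rfl]
  · rw [if_neg (Nat.succ_ne_zero N)]
    have h1 : JO f W (N + 1) (N + 1) = ∅ := by
      rw [Set.eq_empty_iff_forall_notMem]
      intro z hz
      apply h _ hz.1
      have h2 := hz.2.1 0 (Nat.succ_pos N)
      rw [coeff_zero_aevalK] at h2
      rw [← h2]
      congr 2
      funext i
      rw [coeff_ar_zero]
    unfold ovol
    rw [h1, Pool.Agent.W375.MT.chi_empty, zero_mul]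

section smooth

/-- **One step at the smooth points.** -/
theorem chi_stepO (f : MvPolynomial σ K) {W : Set (Pt K σ)} (hW : Constr W)
    (hI : Indep (fun _ : Fin 1 => f) W) (k m : ℕ) (hkm : k + 1 ≤ m) :
    M.χ _ (JO f W (k + 1) m) * M.L = M.χ _ (GW (fun _ : Fin 1 => f) W (k + 1) m) := by
  classical
  set g : Fin 1 → MvPolynomial σ K := fun _ => f with hg
  set s' : Fin (m + 1) := ⟨k + 1, by omega⟩ with hs'
  set C : Finset (σ × Fin (m + 1)) := Finset.univ.image (fun s => (s, s')) with hC
  have hmC : ∀ p, p ∈ C ↔ p.2 = s' := by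
    intro p
    rw [hC, Finset.mem_image]
    constructor
    · rintro ⟨v, _, rfl⟩
      rfl
    · intro h
      exact ⟨p.1, Finset.mem_univ _, Prod.ext rfl h.symm⟩
  have h0s : (0 : Fin (m + 1)) ≠ s' := by
    intro h
    have := congrArg Fin.val h
    simp [hs'] at this
  set zr : Pt K (σ × Fin (m + 1)) → Pt K (σ × Fin (m + 1)) := fun z q =>
    if q.2 = s' then 0 else z q with hzr
  set D : Fin 1 → (σ × Fin (m + 1)) → Pt K (σ × Fin (m + 1)) → AlgebraicClosure K :=
    fun t q z => aeval (fun i => z (i, 0)) (pderiv q.1 (g t)) with hD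
  set H : Fin 1 → Pt K (σ × Fin (m + 1)) → AlgebraicClosure K :=
    fun t z => PowerSeries.coeff (k + 1) (aeval (ar (zr z)) (g t)) with hH
  have hcoef : ∀ (z : Pt K (σ × Fin (m + 1))) t,
      PowerSeries.coeff (k + 1) (aeval (ar z) (g t)) = ∑ q ∈ C, D t q z * z q + H t z := by
    intro z t
    rw [coeff_taylor (g t) k (ar z) (ar (zr z)) (fun i => z (i, s'))]
    · rw [hC, Finset.sum_image (fun a _ b _ h => (Prod.mk.inj h).1)]
      congr 1
      refine Finset.sum_congr rfl fun s _ => ?_
      simp only [hD]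
      congr 3
      funext i
      rw [coeff_ar_zero]
      simp only [hzr]
      rw [if_neg h0s]
    · intro i
      ext j
      rw [map_add, PowerSeries.coeff_C_mul, PowerSeries.coeff_X_pow, coeff_ar, coeff_ar]
      by_cases hj : j < m + 1
      · rw [dif_pos hj, dif_pos hj]
        simp only [hzr]
        by_cases hjk : j = k + 1
        · subst hjk
          rw [if_pos rfl, if_pos rfl, zero_add, mul_one]
        · rw [if_neg, if_neg hjk, mul_zero, add_zero]
          intro h
          apply hjk
          have := congrArg Fin.val h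
          simpa [hs'] using this
      · rw [dif_neg hj, dif_neg hj, if_neg (by omega), mul_zero, add_zero]
  have pH : ∀ t, IsPF (H t) := by
    intro t
    refine pf_coeffK (fun z => zr z) (fun q => ?_) _ _
    simp only [hzr]
    by_cases h : q.2 = s'
    · simp only [if_pos h]
      exact IsPF.zero
    · simp only [if_neg h]
      exact IsPF.coord q
  have key := sLin' M C 1 (GW g W (k + 1) m) D (fun t z => H t z - 1)
    (constr_GW g hW _ _) ?_ ?_ ?_ ?_
  · rw [pow_one] at key
    rw [← key]
    congr 2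
    ext z
    rw [Set.mem_inter_iff, mem_GW]
    constructor
    · rintro ⟨h1, h2, h3⟩
      refine ⟨⟨h1, fun t => h2⟩, fun t => ?_⟩
      have h4 := hcoef z t
      change PowerSeries.coeff (k + 1) (aeval (ar z) f) = _ at h4
      rw [h3] at h4
      linear_combination -h4
    · rintro ⟨⟨h1, h2⟩, h3⟩
      refine ⟨h1, h2 0, ?_⟩
      have h4 := hcoef z 0
      have h5 := h3 0
      change PowerSeries.coeff (k + 1) (aeval (ar z) f) = _ at h4
      rw [h4]
      linear_combination h5
  · intro t q
    exact (IsPF.poly (pderiv q.1 (g t))).comp (fun (z : Pt K (σ × Fin (m + 1))) (i : σ) =>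
      z (i, 0)) fun i => IsPF.coord _
  · intro t
    have h1 := (IsPF.const (ι := σ × Fin (m + 1)) (-1 : K))
    have h2 := (pH t).add h1
    simp only [map_neg, map_one] at h2
    simp only [sub_eq_add_neg]
    exact h2
  · intro z w hzw
    have h1 : ∀ i, w (i, 0) = z (i, 0) := fun i => hzw _ fun hc => h0s ((hmC _).1 hc)
    have h2 : ∀ i, Cg k (ar w i) (ar z i) := by
      intro i j hj
      rw [coeff_ar, coeff_ar, dif_pos (by omega), dif_pos (by omega)]
      refine hzw _ fun hc => ?_
      have := congrArg Fin.val ((hmC _).1 hc)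
      simp [hs'] at this
      omega
    refine ⟨?_, ?_, ?_⟩
    · rintro ⟨h3, h4⟩
      refine ⟨?_, fun t => (vn_congr' (cg_aevalK _ k _ _ h2) le_rfl).2 (h4 t)⟩
      have : (fun i => w (i, 0)) = fun i => z (i, 0) := funext h1
      rw [this]
      exact h3
    · intro t q
      simp only [hD]
      congr 2
      funext i
      exact h1 i
    · intro t
      simp only [hH]
      have h5 : zr w = zr z := by
        funext q
        simp only [hzr]
        by_cases h : q.2 = s'
        · rw [if_pos h, if_pos h]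
        · rw [if_neg h, if_neg h]
          exact hzw q fun hc => h ((hmC q).1 hc)
      rw [h5]
  · rintro z ⟨h1, h2⟩ l hl t
    refine (hI _ h1).2 l (fun s => ?_) t
    have h3 := hl (s, s') ((hmC _).2 rfl)
    simpa only [hD] using h3

variable (hv : M.L * v = 1)
include hv

/-- **The smooth points.** -/
theorem ovol_smooth (f : MvPolynomial σ K) {W : Set (Pt K σ)} (hW : Constr W)
    (hI : Indep (fun _ : Fin 1 => f) W) (N : ℕ) :
    ovol M v f W (N + 1) = M.χ σ W * v ^ Fintype.card σ * v * v ^ N := by
  have h1 := chi_stepO M f hW hI N (N + 1) le_rfl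
  have h2 := vol_smooth M hv (fun _ : Fin 1 => f) hW hI N
  rw [pow_one] at h2
  unfold vol at h2
  rw [← h1] at h2
  unfold ovol
  linear_combination v * h2 - (M.χ _ (JO f W (N + 1) (N + 1)) *
    v ^ (Fintype.card σ * (N + 1 + 1))) * hv

theorem OW_smooth (f : MvPolynomial σ K) {W : Set (Pt K σ)} (hW : Constr W)
    (hI : Indep (fun _ : Fin 1 => f) W) :
    OW M v f W = (PowerSeries.C (ovol M v f W 0) + PowerSeries.C (M.χ σ W *
      v ^ Fintype.card σ * v - v * ovol M v f W 0) * PowerSeries.X) +
      PowerSeries.C (v ^ 1) * PowerSeries.X ^ 1 * OW M v f W := by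
  ext N
  have e1 : PowerSeries.C (v ^ 1) * PowerSeries.X ^ 1 * OW M v f W =
      PowerSeries.C v * (PowerSeries.X * OW M v f W) := by rw [pow_one, pow_one, mul_assoc]
  rw [e1, map_add, map_add, PowerSeries.coeff_C_mul, PowerSeries.coeff_C_mul, coeff_OW,
    PowerSeries.coeff_C]
  rcases N with _ | N
  · rw [PowerSeries.coeff_zero_X_mul, mul_zero, add_zero, PowerSeries.coeff_zero_X, mul_zero,
      add_zero, if_pos rfl]
  · rw [PowerSeries.coeff_succ_X_mul, PowerSeries.coeff_X, coeff_OW, if_neg (Nat.succ_ne_zero N),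
      zero_add, ovol_smooth M hv f hW hI]
    rcases N with _ | N
    · rw [if_pos rfl]
      ring
    · rw [if_neg (by omega), mul_zero, zero_add, ovol_smooth M hv f hW hI]
      ring

end smooth

end Pool.Agent.H1.TG
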