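import Pool.Agent.H1.TG.Cone

set_option autoImplicit false
set_option linter.unusedSectionVars false
set_option linter.unusedVariables false

/-! # Covers, and changes of variables -/

namespace Pool.Agent.H1.TG

open MvPolynomial Pool.Agent.W428.MOT Pool.Agent.TH192.MT Pool.Agent.TH192.DT Pool.Agent.Q49.CO
open Pool.Agent.Q57.MD (CT constr_CT HT)
open Pool.Agent.H1.TB (tj ar_tj cg_symm cg_trans cg_refl eq_tj_of_cg cg_mul cg_cancel mul_inv_ps)

section cov

variable {K : Type} [Field K]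

theorem rf_comp {ι κ : Type} {S : Set (Pt K κ)} {F : Pt K κ → AlgebraicClosure K}
    (h : IsRF S F) (φ : Pt K ι → Pt K κ) (hφ : ∀ i, IsPF fun z => φ z i) {S' : Set (Pt K ι)}
    (hS : ∀ z ∈ S', φ z ∈ S) : IsRF S' fun z => F (φ z) := by
  obtain ⟨P, Q, h⟩ := h
  obtain ⟨P', hP⟩ := (IsPF.poly P).comp φ hφ
  obtain ⟨Q', hQ⟩ := (IsPF.poly Q).comp φ hφ
  refine ⟨P', Q', fun z hz => ?_⟩
  have h1 := h _ (hS z hz)
  rw [← hP z, ← hQ z]
  exact h1

variable {σ τ : Type}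

/-- `y ^ k f` -/
noncomputable def yk (k : ℕ) (f : MvPolynomial σ K) : MvPolynomial (Option σ) K :=
  X none ^ k * rename some f

/-- the points with `y ≠ 0` -/
def Wy (W : Set (Pt K σ)) : Set (Pt K (Option σ)) :=
  {z | z none ≠ 0 ∧ (fun i => z (some i)) ∈ W}

theorem constr_Wy {W : Set (Pt K σ)} (hW : Constr W) : Constr (Wy W) :=
  Constr.and (Constr.eqz (IsPF.coord none)).compl
    (hW.preimage (fun (z : Pt K (Option σ)) (i : σ) => z (some i)) fun i => IsPF.coord _)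

/-- the jet without `y` -/
def sm {m : ℕ} (z : Pt K (Option σ × Fin (m + 1))) : Pt K (σ × Fin (m + 1)) :=
  fun q => z (some q.1, q.2)

theorem ar_sm {m : ℕ} (z : Pt K (Option σ × Fin (m + 1))) (i : σ) :
    ar (sm z) i = ar z (some i) := rfl

theorem aeval_yk {A : Type} [CommRing A] [Algebra K A] (k : ℕ) (f : MvPolynomial σ K)
    (x : Option σ → A) : aeval x (yk k f) = x none ^ k * aeval (fun i => x (some i)) f := by
  unfold yk
  rw [map_mul, map_pow, aeval_X, aeval_rename]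
  rfl

theorem coeff_pow_mul {F : Type} [Field F] {N : ℕ} (u a : PowerSeries F) (k : ℕ)
    (ha : Vn N a) : PowerSeries.coeff N (u ^ k * a) =
      PowerSeries.coeff 0 u ^ k * PowerSeries.coeff N a := by
  obtain ⟨b, rfl⟩ := (vn_iff).1 ha
  have h1 : u ^ k * (PowerSeries.X ^ N * b) = PowerSeries.X ^ N * (u ^ k * b) := by ring
  rw [h1, PowerSeries.coeff_X_pow_mul', PowerSeries.coeff_X_pow_mul', if_pos le_rfl,
    if_pos le_rfl, Nat.sub_self]
  simp only [PowerSeries.coeff_zero_eq_constantCoeff_apply, map_mul, map_pow]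

theorem mem_JOy {k : ℕ} {f : MvPolynomial σ K} {W : Set (Pt K σ)} {N m : ℕ}
    {z : Pt K (Option σ × Fin (m + 1))} :
    z ∈ JO (yk k f) (Wy W) N m ↔ z (none, 0) ≠ 0 ∧ (fun i => z (some i, 0)) ∈ W ∧
      Vn N (aeval (ar (sm z)) f) ∧
      z (none, 0) ^ k * PowerSeries.coeff N (aeval (ar (sm z)) f) = 1 := by
  have h1 : aeval (ar z) (yk k f) = ar z none ^ k * aeval (ar (sm z)) f := aeval_yk k f _
  have h0 : PowerSeries.coeff 0 (ar z none) = z (none, 0) := coeff_ar_zero z none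
  constructor
  · rintro ⟨⟨h2, h3⟩, h4, h5⟩
    rw [h1] at h4 h5
    have h6 : PowerSeries.coeff 0 (ar z none ^ k) ≠ 0 := by
      rw [PowerSeries.coeff_zero_eq_constantCoeff_apply, map_pow,
        ← PowerSeries.coeff_zero_eq_constantCoeff_apply, h0]
      exact pow_ne_zero _ h2
    rw [vn_unit h6] at h4
    rw [coeff_pow_mul _ _ _ h4, h0] at h5
    exact ⟨h2, h3, h4, h5⟩
  · rintro ⟨h2, h3, h4, h5⟩
    refine ⟨⟨h2, h3⟩, ?_, ?_⟩
    · rw [h1, vn_unit]
      · exact h4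
      · rw [PowerSeries.coeff_zero_eq_constantCoeff_apply, map_pow,
          ← PowerSeries.coeff_zero_eq_constantCoeff_apply, h0]
        exact pow_ne_zero _ h2
    · rw [h1, coeff_pow_mul _ _ _ h4, h0]
      exact h5

variable [Fintype σ] [Fintype τ] {R : Type} [CommRing R] (M : Meas K R)

/-- **Changes of variables for the covers.** -/
theorem chi_covY {N k : ℕ} (f : MvPolynomial σ K) (h : MvPolynomial τ K)
    {W : Set (Pt K σ)} {W' : Set (Pt K τ)} (hW : Constr W) (hW' : Constr W')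
    (A : Pt K (σ × Fin (N + 1)) → τ → PowerSeries (AlgebraicClosure K))
    (B : Pt K (τ × Fin (N + 1)) → σ → PowerSeries (AlgebraicClosure K))
    (a : Pt K (σ × Fin (N + 1)) → AlgebraicClosure K)
    (b : Pt K (τ × Fin (N + 1)) → AlgebraicClosure K)
    (hA : ∀ i, IsRA {z : Pt K (σ × Fin (N + 1)) | (fun i => z (i, 0)) ∈ W} fun z => A z i)
    (hB : ∀ i, IsRA {z : Pt K (τ × Fin (N + 1)) | (fun i => z (i, 0)) ∈ W'} fun z => B z i)
    (ha : IsRF {z : Pt K (σ × Fin (N + 1)) | (fun i => z (i, 0)) ∈ W} a)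
    (hb : IsRF {z : Pt K (τ × Fin (N + 1)) | (fun i => z (i, 0)) ∈ W'} b)
    (hAW : ∀ z, (fun i => z (i, 0)) ∈ W → (fun i => PowerSeries.coeff 0 (A z i)) ∈ W')
    (hBW : ∀ z, (fun i => z (i, 0)) ∈ W' → (fun i => PowerSeries.coeff 0 (B z i)) ∈ W)
    (hBA : ∀ z, (fun i => z (i, 0)) ∈ W → ∀ i, Cg N (B (tj N (A z)) i) (ar z i))
    (hAB : ∀ z, (fun i => z (i, 0)) ∈ W' → ∀ i, Cg N (A (tj N (B z)) i) (ar z i))
    (hba : ∀ z, (fun i => z (i, 0)) ∈ W → b (tj N (A z)) * a z = 1)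
    (hab : ∀ z, (fun i => z (i, 0)) ∈ W' → a (tj N (B z)) * b z = 1)
    (hfh : ∀ z : Pt K (σ × Fin (N + 1)), (fun i => z (i, 0)) ∈ W →
      (Vn N (aeval (ar z) f) ↔ Vn N (aeval (A z) h)) ∧ (Vn N (aeval (ar z) f) →
        PowerSeries.coeff N (aeval (ar z) f) =
          a z ^ k * PowerSeries.coeff N (aeval (A z) h))) :
    M.χ _ (JO (yk k f) (Wy W) N N) = M.χ _ (JO (yk k h) (Wy W') N N) := by
  -- the maps
  set P : Pt K (Option σ × Fin (N + 1)) → Pt K (Option τ × Fin (N + 1)) := fun z q =>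
    match q with
    | (none, j) => z (none, j) * a (sm z)
    | (some i, j) => tj N (A (sm z)) (i, j) with hP
  set Q : Pt K (Option τ × Fin (N + 1)) → Pt K (Option σ × Fin (N + 1)) := fun z q =>
    match q with
    | (none, j) => z (none, j) * b (sm z)
    | (some i, j) => tj N (B (sm z)) (i, j) with hQ
  have hPs : ∀ z, sm (P z) = tj N (A (sm z)) := fun z => rfl
  have hQs : ∀ z, sm (Q z) = tj N (B (sm z)) := fun z => rfl
  have hsmσ : ∀ q, IsPF fun z : Pt K (Option σ × Fin (N + 1)) => sm z q := fun q =>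
    IsPF.coord _
  have hsmτ : ∀ q, IsPF fun z : Pt K (Option τ × Fin (N + 1)) => sm z q := fun q =>
    IsPF.coord _
  have hmemA : ∀ z ∈ JO (yk k f) (Wy W) N N, sm z ∈ {z : Pt K (σ × Fin (N + 1)) |
      (fun i => z (i, 0)) ∈ W} := fun z hz => (mem_JOy.1 hz).2.1
  have hmemB : ∀ z ∈ JO (yk k h) (Wy W') N N, sm z ∈ {z : Pt K (τ × Fin (N + 1)) |
      (fun i => z (i, 0)) ∈ W'} := fun z hz => (mem_JOy.1 hz).2.1
  have hfh' : ∀ z : Pt K (σ × Fin (N + 1)), (fun i => z (i, 0)) ∈ W →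
      (Vn N (aeval (ar z) f) ↔ Vn N (aeval (ar (tj N (A z))) h)) ∧
      (Vn N (aeval (ar z) f) → PowerSeries.coeff N (aeval (ar z) f) =
          a z ^ k * PowerSeries.coeff N (aeval (ar (tj N (A z))) h)) := by
    intro z hz
    have h1 := cg_aevalK h N _ _ (ar_tj N (A z))
    rw [vn_congr' h1 (by omega), h1 N le_rfl]
    exact hfh z hz
  have ha0 : ∀ z : Pt K (σ × Fin (N + 1)), (fun i => z (i, 0)) ∈ W → a z ≠ 0 := by
    intro z hz h0
    have h1 := hba z hz
    rw [h0, mul_zero] at h1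
    exact zero_ne_one h1
  have hb0 : ∀ z : Pt K (τ × Fin (N + 1)), (fun i => z (i, 0)) ∈ W' → b z ≠ 0 := by
    intro z hz h0
    have h1 := hab z hz
    rw [h0, mul_zero] at h1
    exact zero_ne_one h1
  refine M.iso _ _ (constr_JO _ (constr_Wy hW) N N) (constr_JO _ (constr_Wy hW') N N) P Q
    (fun q => ?_) (fun q => ?_) ?_ ?_ ?_ ?_
  · rcases q with ⟨_ | i, j⟩
    · exact (IsPF.isRF (IsPF.coord (none, j)) _).mul (rf_comp ha sm hsmσ hmemA)
    · exact rf_comp (hA i j) sm hsmσ hmemA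
  · rcases q with ⟨_ | i, j⟩
    · exact (IsPF.isRF (IsPF.coord (none, j)) _).mul (rf_comp hb sm hsmτ hmemB)
    · exact rf_comp (hB i j) sm hsmτ hmemB
  · intro z hz
    obtain ⟨h1, h2, h3, h4⟩ := mem_JOy.1 hz
    obtain ⟨h5, h6⟩ := hfh' (sm z) h2
    refine mem_JOy.2 ⟨mul_ne_zero h1 (ha0 _ h2), hAW _ h2, ?_, ?_⟩
    · rw [hPs]
      exact h5.1 h3
    · rw [hPs]
      change (z (none, 0) * a (sm z)) ^ k * _ = 1
      rw [← h4, h6 h3]
      ring
  · intro w hw
    obtain ⟨h1, h2, h3, h4⟩ := mem_JOy.1 hw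
    have h7 : (fun i => tj N (B (sm w)) (i, 0)) ∈ W := hBW _ h2
    obtain ⟨h5, h6⟩ := hfh' (tj N (B (sm w))) h7
    have h8 := eq_tj_of_cg (hAB (sm w) h2)
    rw [h8] at h5 h6
    refine mem_JOy.2 ⟨mul_ne_zero h1 (hb0 _ h2), h7, ?_, ?_⟩
    · rw [hQs]
      exact h5.2 h3
    · rw [hQs]
      change (w (none, 0) * b (sm w)) ^ k * _ = 1
      rw [h6 (h5.2 h3), ← h4]
      have h9 := hab (sm w) h2
      have h10 : (a (tj N (B (sm w))) * b (sm w)) ^ k = 1 := by rw [h9, one_pow]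
      linear_combination (w (none, 0) ^ k *
        PowerSeries.coeff N (aeval (ar (sm w)) h)) * h10
  · intro z hz
    have h2 := (mem_JOy.1 hz).2.1
    have h8 := eq_tj_of_cg (hBA (sm z) h2)
    funext q
    rcases q with ⟨_ | i, j⟩
    · change (z (none, j) * a (sm z)) * b (sm (P z)) = z (none, j)
      rw [hPs, mul_assoc, mul_comm (a _), hba _ h2, mul_one]
    · change tj N (B (sm (P z))) (i, j) = z (some i, j)
      rw [hPs, h8]
      rfl
  · intro w hw
    have h2 := (mem_JOy.1 hw).2.1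
    have h8 := eq_tj_of_cg (hAB (sm w) h2)
    funext q
    rcases q with ⟨_ | i, j⟩
    · change (w (none, j) * b (sm w)) * a (sm (Q w)) = w (none, j)
      rw [hQs, mul_assoc, mul_comm (b _), hab _ h2, mul_one]
    · change tj N (A (sm (Q w))) (i, j) = w (some i, j)
      rw [hQs, h8]
      rfl

variable (v : R)

/-- the series of the covers -/
noncomputable def TS (k : ℕ) (f : MvPolynomial σ K) (W : Set (Pt K σ)) : PowerSeries R :=
  OW M v (yk k f) (Wy W)

theorem TS_congr {k : ℕ} (hστ : Fintype.card σ = Fintype.card τ) (f : MvPolynomial σ K)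
    (h : MvPolynomial τ K) (W : Set (Pt K σ)) (W' : Set (Pt K τ))
    (hL : ∀ N, M.χ _ (JO (yk k f) (Wy W) N N) = M.χ _ (JO (yk k h) (Wy W') N N)) :
    TS M v k f W = TS M v k h W' := by
  ext N
  unfold TS
  rw [coeff_OW, coeff_OW]
  unfold ovol
  rw [hL, Fintype.card_option, Fintype.card_option, hστ]

variable {v}

theorem TS_add {k : ℕ} (f : MvPolynomial σ K) {W W' : Set (Pt K σ)} (hW : Constr W)
    (hW' : Constr W') (hd : Disjoint W W') :
    TS M v k f (W ∪ W') = TS M v k f W + TS M v k f W' := by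
  unfold TS
  rw [← OW_add M _ (constr_Wy hW) (constr_Wy hW')]
  · congr 1
    ext z
    constructor
    · rintro ⟨h, h1 | h1⟩
      · exact Or.inl ⟨h, h1⟩
      · exact Or.inr ⟨h, h1⟩
    · rintro (⟨h, h1⟩ | ⟨h, h1⟩)
      · exact ⟨h, Or.inl h1⟩
      · exact ⟨h, Or.inr h1⟩
  · rw [Set.disjoint_left] at hd ⊢
    intro z h h'
    exact hd h.2 h'.2

theorem TS_off {k : ℕ} (f : MvPolynomial σ K) {W : Set (Pt K σ)}
    (h : ∀ w ∈ W, aeval w f ≠ 0) : ∃ c, TS M v k f W = PowerSeries.C c := by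
  refine ⟨_, OW_off M (yk k f) (W := Wy W) fun z hz => ?_⟩
  rw [aeval_yk]
  exact mul_ne_zero (pow_ne_zero _ hz.1) (h _ hz.2)

end cov

end Pool.Agent.H1.TG
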