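import Pool.Agent.H1.TG.MR
import Pool.Agent.H1.VT.Fib

set_option autoImplicit false
set_option linter.unusedSectionVars false
set_option linter.unusedVariables false

/-! # The covers along a fibre -/

namespace Pool.Agent.H1.TG

open MvPolynomial Pool.Agent.W428.MOT Pool.Agent.TH192.MT Pool.Agent.TH192.DT Pool.Agent.Q49.CO
open Pool.Agent.Y229 Pool.Agent.Q57.MC Pool.Agent.Q57.MD
open Pool.Agent.H1.TB
open Pool.Agent.H1.QB (GQ GQ_local)

theorem coeff_mul_vn {F : Type} [Field F] {N : ℕ} (u a : PowerSeries F)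
    (ha : Vn N a) : PowerSeries.coeff N (u * a) =
      PowerSeries.coeff 0 u * PowerSeries.coeff N a := by
  have h1 := coeff_pow_mul u a 1 ha
  rwa [pow_one, pow_one] at h1

section fib

variable {K : Type} [Field K] {N : Type} [Fintype N] [DecidableEq N]
variable (α : Matrix N N K) (β : N → K) (g : N → MvPolynomial (Option N) K)
variable {R : Type} [CommRing R] (M : Meas K R)

/-- **Changes of variables along the fibre over `0`, for the covers.** -/
theorem chi_fibreY {L k : ℕ} {φ : N → MvPolynomial (Option N) K}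
    (hφ : IsFib α β g φ) (f h : MvPolynomial (Option N) K) (cD cU κ : K)
    (gD gU : MvPolynomial (Option N) K) (hcD : cD ≠ 0) (hcU : cU ≠ 0) (hκ : κ ≠ 0)
    (hk : κ ^ k * cD = cU)
    (hdvd : (X none : MvPolynomial (Option N) K) ^ (L + 1) ∣
      (C cD + X none * gD) * f - (C cU + X none * gU) * aeval (opt φ) h) :
    M.χ _ (JO (yk k f) (Wy (F0 K N)) L L) = M.χ _ (JO (yk k h) (Wy (F0 K N)) L L) := by
  have hcomp : ∀ (z : Pt K (Option N × Fin (L + 1))) (ξ : Option N → MvPolynomial (Option N) K)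
      (P : MvPolynomial (Option N) K),
      aeval (fun o => aeval (ar z) (ξ o)) P = aeval (ar z) (aeval ξ P) := by
    intro z ξ P
    rw [← AlgHom.comp_apply]
    congr 1
    refine algHom_ext fun i => ?_
    rw [AlgHom.comp_apply, aeval_X, aeval_X]
  have hz0 : ∀ z : Pt K (Option N × Fin (L + 1)), (fun i => z (i, 0)) ∈ F0 K N →
      PowerSeries.coeff 0 (ar z none) = 0 := by
    intro z hz
    rw [coeff_ar_zero]
    exact hz
  have hκ' : algebraMap K (AlgebraicClosure K) κ ≠ 0 := (map_ne_zero _).2 hκ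
  refine chi_covY M f h constr_F0 constr_F0
    (fun z o => aeval (ar z) (opt φ o)) (fun z o => aeval (ar z) (opt (psi α β g (L + 1)) o))
    (fun _ => algebraMap K _ κ) (fun _ => algebraMap K _ κ⁻¹)
    (fun o => ra_poly _ (fun z => z) (fun i => IsPF.coord _) _)
    (fun o => ra_poly _ (fun z => z) (fun i => IsPF.coord _) _)
    ((IsPF.const κ).isRF _) ((IsPF.const κ⁻¹).isRF _) ?_ ?_ ?_ ?_ ?_ ?_ ?_
  · intro z hz
    change PowerSeries.coeff 0 (aeval (ar z) (X none : MvPolynomial (Option N) K)) = 0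
    rw [aeval_X]
    exact hz0 z hz
  · intro z hz
    change PowerSeries.coeff 0 (aeval (ar z) (X none : MvPolynomial (Option N) K)) = 0
    rw [aeval_X]
    exact hz0 z hz
  · intro z hz o
    set A : Option N → PowerSeries (AlgebraicClosure K) := fun o => aeval (ar z) (opt φ o) with hA
    set y := ar (tj L A) with hy
    have hyA : ∀ o, Cg L (y o) (A o) := ar_tj L A
    have hAn : A none = ar z none := by
      rw [hA]
      exact aeval_X _ _
    have hy0 : PowerSeries.coeff 0 (y none) = 0 := by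
      rw [hyA none 0 (Nat.zero_le _), hAn]
      exact hz0 z hz
    refine fib_inj α β g hφ (fun o => aeval y (opt (psi α β g (L + 1)) o)) (ar z) ?_ ?_ ?_ o
    · change PowerSeries.coeff 0 (aeval y (X none : MvPolynomial (Option N) K)) = 0
      rw [aeval_X]
      exact hy0
    · change Cg L (aeval y (X none : MvPolynomial (Option N) K)) (ar z none)
      rw [aeval_X, ← hAn]
      exact hyA none
    · intro j
      rw [hy, hcomp, ← hy]
      have h1 := dvd_arc y hy0 (L + 1) _ (psi_inv α β g hφ L j)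
      rw [map_sub, aeval_X] at h1
      exact cg_trans (Pool.Agent.H1.TB.cg_iff.2 h1) (hyA (some j))
  · intro z hz o
    have h1 := cg_aevalK (opt φ o) L _ _ (ar_tj L fun o => aeval (ar z)
      (opt (psi α β g (L + 1)) o))
    refine cg_trans h1 ?_
    rw [hcomp]
    rcases o with _ | j
    · change Cg L (aeval (ar z) (aeval (opt (psi α β g (L + 1)))
        (X none : MvPolynomial (Option N) K))) _
      rw [aeval_X]
      change Cg L (aeval (ar z) (X none : MvPolynomial (Option N) K)) _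
      rw [aeval_X]
      exact cg_refl _
    · have h2 := dvd_arc (ar z) (hz0 z hz) (L + 1) _ (psi_inv α β g hφ L j)
      rw [map_sub, aeval_X] at h2
      exact Pool.Agent.H1.TB.cg_iff.2 h2
  · intro z hz
    rw [map_inv₀]
    exact inv_mul_cancel₀ hκ'
  · intro z hz
    rw [map_inv₀]
    exact mul_inv_cancel₀ hκ'
  · intro z hz
    have hu : ∀ (c : K) (G : MvPolynomial (Option N) K),
        PowerSeries.coeff 0 (aeval (ar z) (C c + X none * G)) = algebraMap K _ c := by
      intro c G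
      rw [coeff_zero_aevalK]
      have h1 : (fun i => PowerSeries.coeff 0 (ar z i)) = fun i => z (i, 0) := by
        funext i
        rw [coeff_ar_zero]
      rw [h1, map_add, map_mul, aeval_X, aeval_C]
      have h2 : z (none, 0) = 0 := hz
      rw [h2, zero_mul, add_zero]
    have hD0 : PowerSeries.coeff 0 (aeval (ar z) (C cD + X none * gD)) ≠ 0 := by
      rw [hu]
      exact (map_ne_zero _).2 hcD
    have hU0 : PowerSeries.coeff 0 (aeval (ar z) (C cU + X none * gU)) ≠ 0 := by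
      rw [hu]
      exact (map_ne_zero _).2 hcU
    have h1 := dvd_arc (ar z) (hz0 z hz) (L + 1) _ hdvd
    have h2 : Cg L (aeval (ar z) (C cD + X none * gD) * aeval (ar z) f)
        (aeval (ar z) (C cU + X none * gU) * aeval (ar z) (aeval (opt φ) h)) := by
      rw [Pool.Agent.H1.TB.cg_iff, ← map_mul, ← map_mul, ← map_sub]
      exact h1
    have e4 := hcomp z (opt φ) h
    have hvn : Vn L (aeval (ar z) f) ↔ Vn L (aeval (ar z) (aeval (opt φ) h)) :=
      (vn_unit hD0).symm.trans ((vn_congr' h2 (by omega)).trans (vn_unit hU0))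
    rw [e4]
    refine ⟨hvn, fun h5 => ?_⟩
    have h6 := h2 L le_rfl
    rw [coeff_mul_vn (aeval (ar z) (C cD + X none * gD)) (aeval (ar z) f) h5,
      coeff_mul_vn (aeval (ar z) (C cU + X none * gU)) (aeval (ar z) (aeval (opt φ) h))
        (hvn.1 h5), hu, hu] at h6
    have h7 : algebraMap K (AlgebraicClosure K) cD ≠ 0 := (map_ne_zero _).2 hcD
    refine mul_left_cancel₀ h7 ?_
    rw [h6, ← hk, map_mul, map_pow]
    ring

/-- **The model has the same covers along the fibre.** -/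
theorem chi_mdlY [IsAlgClosed K] [CharZero K] {f : MvPolynomial (Option N) K} (d : FD f)
    (ι : d.T → N) (α : Matrix N N K) (hι : Function.Injective ι) (hα : α.det ≠ 0)
    (hαι : ∀ j, α (ι j) = d.r j) (k : ℕ) (hk0 : 0 < k) (L : ℕ) :
    M.χ _ (JO (yk k f) (Wy (F0 K N)) L L) =
      M.χ _ (JO (yk k (mdl K ι d.m d.e d.ζ d.k)) (Wy (F0 K N)) L L) := by
  classical
  choose V hV hVd using fun j => root_mod (d.hU j) d.hU₀ (d.e j) (d.he j).1 (L + 1)
  choose cV gV hcV hVe using hV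
  have key : ∀ n : N, ∃ (γ : K) (β : K) (g φ : MvPolynomial (Option N) K), γ ≠ 0 ∧
      φ = C β + (∑ k, C (γ * α n k) * X (some k)) + X none * g ∧
      ∀ j, ι j = n → φ = V j * d.y j := by
    intro n
    by_cases h : ∃ j, ι j = n
    · obtain ⟨j, rfl⟩ := h
      obtain ⟨β, g, hβ⟩ := IsRow.umul (d.hy j) (cV j) (gV j)
      refine ⟨cV j, β, g, V j * d.y j, hcV j, ?_, fun j' hj' => ?_⟩
      · rw [← hVe] at hβ
        rw [hβ, hαι]
        rfl
      · rw [hι hj']
    · refine ⟨1, 0, 0, _, one_ne_zero, rfl, fun j hj => absurd ⟨j, hj⟩ h⟩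
  choose γ β g φ hγ hφ hφι using key
  have hdet : (Matrix.of fun n k => γ n * α n k).det ≠ 0 := by
    have h1 : (Matrix.of fun n k => γ n * α n k) = Matrix.diagonal γ * α := by
      ext1 n k
      rw [Matrix.diagonal_mul]
      rfl
    rw [h1, Matrix.det_mul, Matrix.det_diagonal]
    exact mul_ne_zero (Finset.prod_ne_zero_iff.2 fun n _ => hγ n) hα
  obtain ⟨cD, gD, hcD, hD⟩ := d.hD
  obtain ⟨cU, gU, hcU, hU⟩ := d.hU₀
  obtain ⟨κ, hκ⟩ := IsAlgClosed.exists_pow_nat_eq (cU / cD) hk0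
  have hκ0 : κ ≠ 0 := by
    rintro rfl
    rw [zero_pow hk0.ne'] at hκ
    exact div_ne_zero hcU hcD hκ.symm
  refine chi_fibreY (Matrix.of fun n k => γ n * α n k) β g M (φ := φ) ⟨hdet, hφ⟩ f
    (mdl K ι d.m d.e d.ζ d.k) cD cU κ gD gU hcD hcU hκ0
    (by rw [hκ]; exact div_mul_cancel₀ _ hcD) ?_
  rw [← hD, ← hU, d.heq, aeval_mdl]
  have h1 : (∑ j, d.U j * (X none ^ d.m j * d.y j ^ d.e j)) +
      (if d.ζ then d.U₀ * X none ^ d.k else 0) -
      d.U₀ * ((∑ j, opt φ none ^ d.m j * opt φ (some (ι j)) ^ d.e j) +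
        if d.ζ then opt φ none ^ d.k else 0) =
      -∑ j, (d.U₀ * V j ^ d.e j - d.U j) * (X none ^ d.m j * d.y j ^ d.e j) := by
    have h2 : ∀ j, opt φ (some (ι j)) = V j * d.y j := fun j => hφι (ι j) j rfl
    have h3 : opt φ none = X none := rfl
    simp only [h2, h3, mul_pow]
    rw [mul_add, Finset.mul_sum]
    have h4 : d.U₀ * (if d.ζ then X none ^ d.k else 0) =
        if d.ζ then d.U₀ * X none ^ d.k else 0 := by
      rw [mul_ite, mul_zero]
    rw [h4, ← sub_sub, add_sub_right_comm, add_sub_cancel_right, ← Finset.sum_sub_distrib,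
      ← Finset.sum_neg_distrib]
    refine Finset.sum_congr rfl fun j _ => ?_
    ring
  rw [h1, dvd_neg]
  exact Finset.dvd_sum fun j _ => Dvd.dvd.mul_right (hVd j) _

end fib

section tr

/-- translations -/
theorem chi_trY {σ : Type} [Fintype σ] {R : Type} [CommRing R] (M : Meas ℂ R) {L k : ℕ}
    (p : σ → ℂ) (f : MvPolynomial σ ℂ)
    {W W' : Set (Pt ℂ σ)} (hW : Constr W) (hW' : Constr W')
    (hWW : ∀ z : Pt ℂ σ, z ∈ W' ↔ (fun i => z i + algebraMap ℂ (AlgebraicClosure ℂ) (p i)) ∈ W) :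
    M.χ _ (JO (yk k f) (Wy W) L L) = M.χ _ (JO (yk k (tr p f)) (Wy W') L L) := by
  have hCC : ∀ (x : σ → PowerSeries (AlgebraicClosure ℂ)) (c : ℂ),
      aeval x (C c : MvPolynomial σ ℂ) = PowerSeries.C (algebraMap ℂ (AlgebraicClosure ℂ) c) := by
    intro x c
    rw [algHom_C]
    exact PowerSeries.algebraMap_apply
  have hs : ∀ (x : σ → PowerSeries (AlgebraicClosure ℂ)) (i : σ),
      aeval x (X i - C (p i) : MvPolynomial σ ℂ) =
        x i - PowerSeries.C (algebraMap ℂ (AlgebraicClosure ℂ) (p i)) := by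
    intro x i
    rw [map_sub, aeval_X, hCC]
  have ha : ∀ (x : σ → PowerSeries (AlgebraicClosure ℂ)) (i : σ),
      aeval x (X i + C (p i) : MvPolynomial σ ℂ) =
        x i + PowerSeries.C (algebraMap ℂ (AlgebraicClosure ℂ) (p i)) := by
    intro x i
    rw [map_add, aeval_X, hCC]
  have h1F : ∀ S : Set (Pt ℂ (σ × Fin (L + 1))), IsRF S fun _ => (1 : AlgebraicClosure ℂ) := by
    intro S
    have h := (IsPF.const (ι := σ × Fin (L + 1)) (1 : ℂ)).isRF S
    simp only [map_one] at h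
    exact h
  refine chi_covY M f (tr p f) hW hW'
    (fun z o => aeval (ar z) (X o - C (p o) : MvPolynomial σ ℂ))
    (fun z o => aeval (ar z) (X o + C (p o) : MvPolynomial σ ℂ)) (fun _ => 1) (fun _ => 1)
    (fun o => ra_poly _ (fun z => z) (fun i => IsPF.coord _) _)
    (fun o => ra_poly _ (fun z => z) (fun i => IsPF.coord _) _) (h1F _) (h1F _)
    ?_ ?_ ?_ ?_ ?_ ?_ ?_
  · intro z hz
    rw [hWW]
    have h1 : (fun i => PowerSeries.coeff 0 (aeval (ar z) (X i - C (p i) : MvPolynomial σ ℂ)) +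
        algebraMap ℂ (AlgebraicClosure ℂ) (p i)) = fun i => z (i, 0) := by
      funext i
      rw [hs, map_sub, PowerSeries.coeff_zero_C, sub_add_cancel, coeff_ar_zero]
    rw [h1]
    exact hz
  · intro z hz
    have h1 : (fun i => PowerSeries.coeff 0 (aeval (ar z) (X i + C (p i) : MvPolynomial σ ℂ))) =
        fun i => z (i, 0) + algebraMap ℂ (AlgebraicClosure ℂ) (p i) := by
      funext i
      rw [ha, map_add, PowerSeries.coeff_zero_C, coeff_ar_zero]
    rw [h1]
    exact (hWW _).1 hz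
  · intro z hz i
    have h1 := ar_tj L (fun o => aeval (ar z) (X o - C (p o) : MvPolynomial σ ℂ)) i
    rw [ha]
    intro k hk
    rw [map_add, h1 k hk, ← map_add, hs, sub_add_cancel]
  · intro z hz i
    have h1 := ar_tj L (fun o => aeval (ar z) (X o + C (p o) : MvPolynomial σ ℂ)) i
    rw [hs]
    intro k hk
    rw [map_sub, h1 k hk, ← map_sub, ha, add_sub_cancel_right]
  · intro z _
    exact one_mul _
  · intro z _
    exact one_mul _
  · intro z hz
    have h2 : aeval (fun o => aeval (ar z) (X o - C (p o) : MvPolynomial σ ℂ)) (tr p f) =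
        aeval (ar z) f := by
      unfold tr
      rw [← AlgHom.comp_apply]
      congr 1
      refine algHom_ext fun i => ?_
      rw [AlgHom.comp_apply, aeval_X, map_add, aeval_X, hs, hCC, sub_add_cancel, aeval_X]
    rw [h2, one_pow, one_mul]
    exact ⟨Iff.rfl, fun _ => rfl⟩

end tr

section

variable {M : Meas ℂ (MK ℂ)} (hL : M.L = ((Lu ℂ : (MK ℂ)ˣ) : MK ℂ))
variable {N : Type} [Fintype N] [DecidableEq N]
include hL

/-- **The fibre over `0`.** -/
theorem fibre_zero (k : ℕ) (hk0 : 0 < k) (c : Polynomial ℂ) (b : N → Polynomial ℂ)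
    (q : N → N → Polynomial ℂ) (hq : ∀ j k, q j k = q k j) (hne : qb c b q ≠ 0) :
    ∃ Q : Finset (ℤ × ℤ), (∀ x ∈ Q, x.1 < 0 ∧ 0 < x.2 ∧ ∃ p : Option N → ℂ,
      SF (fun _ : Fin 1 => qb c b q) p ((x.1 : ℂ) / x.2)) ∧
      TS M (((Lu ℂ)⁻¹ : (MK ℂ)ˣ) : MK ℂ) k (qb c b q) (F0 ℂ N) ∈
        ratU (Lu ℂ) (Q : Set (ℤ × ℤ)) := by
  classical
  obtain ⟨d⟩ := fd_GQ c b q hq
  obtain ⟨ι, α, hι, hα, hαι⟩ := complete d.r d.hr
  have hT : Nonempty d.T ∨ d.ζ = true := by
    by_contra hcon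
    push Not at hcon
    obtain ⟨h1, h2⟩ := hcon
    have h3 := d.heq
    rw [Finset.sum_of_isEmpty, zero_add, if_neg h2] at h3
    obtain ⟨cD, gD, hcD, hD⟩ := d.hD
    have h4 : d.D ≠ 0 := by
      intro h0
      have h5 := congrArg constantCoeff hD
      rw [h0, map_zero, map_add, map_mul, constantCoeff_X, constantCoeff_C, zero_mul,
        add_zero] at h5
      exact hcD h5.symm
    exact hne ((mul_eq_zero.1 h3).resolve_left h4)
  obtain ⟨Q, hQ, hz⟩ := mdl_rat hL k ι hι d.m d.e (fun j => (d.he j).1) d.ζ d.k d.hk hT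
  refine ⟨Q, fun x hx => ?_, ?_⟩
  · obtain ⟨h1, h2, p, hp, h3⟩ := hQ x hx
    obtain ⟨p', -, h4⟩ := fd_sf d ι α hι hα hαι
      (mdl_ne ι hι d.m d.e (fun j => (d.he j).1) d.ζ d.k hT) p hp _ h3
    exact ⟨h1, h2, p', h4⟩
  · rw [TS_congr M _ rfl (qb c b q) (mdl ℂ ι d.m d.e d.ζ d.k) (F0 ℂ N) (F0 ℂ N)
      fun L => chi_mdlY M d ι α hι hα hαι k hk0 L]
    exact hz

/-- **The fibre over a point.** -/
theorem fibre_at (k : ℕ) (hk0 : 0 < k) (c : Polynomial ℂ) (b : N → Polynomial ℂ)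
    (q : N → N → Polynomial ℂ) (hne : qb c b q ≠ 0) (t : ℂ) :
    ∃ Q : Finset (ℤ × ℤ), (∀ x ∈ Q, x.1 < 0 ∧ 0 < x.2 ∧ ∃ p : Option N → ℂ,
      SF (fun _ : Fin 1 => qb c b q) p ((x.1 : ℂ) / x.2)) ∧
      TS M (((Lu ℂ)⁻¹ : (MK ℂ)ˣ) : MK ℂ) k (qb c b q) (Ft N t) ∈
        ratU (Lu ℂ) (Q : Set (ℤ × ℤ)) := by
  classical
  obtain ⟨c', b', q', hq', h⟩ := tr_qb c b q t
  obtain ⟨Q, hQ, hz⟩ := fibre_zero hL k hk0 c' b' q' hq' (by
    rw [← h]
    exact tr_inj _ _ hne)
  refine ⟨Q, fun x hx => ?_, ?_⟩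
  · obtain ⟨h1, h2, p, h3⟩ := hQ x hx
    rw [← h] at h3
    exact ⟨h1, h2, _, sf_tr _ _ _ _ h3⟩
  · rw [TS_congr M _ rfl (qb c b q) (qb c' b' q') (Ft N t) (F0 ℂ N) fun L => ?_]
    · exact hz
    · rw [← h]
      refine chi_trY M _ _ (constr_Ft t) constr_F0 fun z => ?_
      change z none = 0 ↔ z none + algebraMap ℂ (AlgebraicClosure ℂ) t = algebraMap ℂ _ t
      rw [add_eq_right]

end

end Pool.Agent.H1.TG
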