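import Pool.Agent.H1.TG.Asm
import Pool.Graph.R_pool_sql_team_seeded_3997aac3.Q223.TW.Red

set_option autoImplicit false
set_option linter.unusedSectionVars false
set_option linter.unusedVariables false

/-! # The global twisted topological zeta functions of quadric bundles over the line -/

namespace Pool.Agent.H1.TG

open MvPolynomial Pool.Agent.W428.MOT Pool.Agent.TH192.MT Pool.Agent.TH192.DT Pool.Agent.Q49.CO
open Pool.Agent.Y229 Pool.Agent.Q57.MC Pool.Agent.Q57.MD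
open Pool.Agent.TH192.MU (JetC zetaC IsTopZeta IsTwistedTop)
open Pool.Agent.H1.TB

section

variable {σ : Type} [Fintype σ]

/-- the coordinates -/
def eJ (σ : Type) (N : ℕ) : (Unit ⊕ σ × Fin (N + 1)) ⊕ Fin N ≃ Option σ × Fin (N + 1) where
  toFun := fun x => match x with
    | Sum.inl (Sum.inl ()) => (none, 0)
    | Sum.inl (Sum.inr (i, j)) => (some i, j)
    | Sum.inr j => (none, j.succ)
  invFun := fun (i, j) => match i with
    | none => Fin.cases (motive := fun _ => (Unit ⊕ σ × Fin (N + 1)) ⊕ Fin N)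
        (Sum.inl (Sum.inl ())) (fun j => Sum.inr j) j
    | some i => Sum.inl (Sum.inr (i, j))
  left_inv := by
    rintro ((⟨⟩ | ⟨i, j⟩) | j)
    · rfl
    · rfl
    · rfl
  right_inv := by
    rintro ⟨_ | i, j⟩
    · refine Fin.cases rfl (fun j => rfl) j
    · rfl

theorem chi_JetC_JO {R : Type} [CommRing R] (M : Meas ℂ R) (f : MvPolynomial σ ℂ) (k N : ℕ) :
    M.χ _ (JO (yk k f) (Wy (Set.univ : Set (Pt ℂ σ))) N N) = M.χ _ (JetC f k N) * M.L ^ N := by
  set S' : Set (Pt ℂ (Unit ⊕ σ × Fin (N + 1))) := {z | z (Sum.inl ()) ≠ 0 ∧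
    Vn N (aeval (ar fun q => z (Sum.inr q)) f) ∧
      z (Sum.inl ()) ^ k * PowerSeries.coeff N (aeval (ar fun q => z (Sum.inr q)) f) = 1} with hS'
  have pc : ∀ j, IsPF fun z : Pt ℂ (Unit ⊕ σ × Fin (N + 1)) =>
      PowerSeries.coeff j (aeval (ar fun q => z (Sum.inr q)) f) := fun j =>
    pf_coeffK (fun (z : Pt ℂ (Unit ⊕ σ × Fin (N + 1))) q => z (Sum.inr q))
      (fun i => IsPF.coord _) f j
  have cS' : Constr S' := by
    refine Constr.and (Constr.eqz (IsPF.coord _)).compl (Constr.and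
      (Constr.allLt _ fun j _ => Constr.eqz (pc j)) ?_)
    have h := Constr.eq (((IsPF.coord (Sum.inl ())).pow k).mul (pc N))
      (IsPF.const (1 : ℂ))
    simp only [map_one] at h
    exact h
  have cJ : Constr (JetC f k N) := Pool.Agent.Q223.TW.constr_JetC f k N
  have h1 := chi_split M (eJ σ N) (JO (yk k f) (Wy (Set.univ : Set (Pt ℂ σ))) N N) S' cS'
    (fun z => by
      rw [mem_JOy]
      constructor
      · rintro ⟨h2, -, h3, h4⟩
        exact ⟨h2, h3, h4⟩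
      · rintro ⟨h2, h3, h4⟩
        exact ⟨h2, trivial, h3, h4⟩)
  rw [h1, Fintype.card_fin]
  congr 1
  -- inversion
  set φ : Pt ℂ (Unit ⊕ σ × Fin (N + 1)) → Pt ℂ (Unit ⊕ σ × Fin (N + 1)) := fun z q =>
    match q with
    | Sum.inl () => (z (Sum.inl ()))⁻¹
    | Sum.inr q => z (Sum.inr q) with hφ
  have hrf : ∀ T : Set (Pt ℂ (Unit ⊕ σ × Fin (N + 1))), (∀ z ∈ T, z (Sum.inl ()) ≠ 0) →
      RegularOn T φ := by
    intro T hT q
    rcases q with ⟨⟩ | q
    · exact rf_inv ((IsPF.coord (Sum.inl ())).isRF _) hT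
    · exact (IsPF.coord (Sum.inr q)).isRF _
  have hφφ : ∀ z, φ (φ z) = z := by
    intro z
    funext q
    rcases q with ⟨⟩ | q
    · exact inv_inv _
    · rfl
  refine M.iso _ _ cS' cJ φ φ (hrf _ fun z hz => hz.1) (hrf _ fun z hz => hz.1) ?_ ?_
    (fun z _ => hφφ z) fun z _ => hφφ z
  · rintro z ⟨h2, h3, h4⟩
    refine ⟨inv_ne_zero h2, trivial, h3, ?_⟩
    change PowerSeries.coeff N (aeval (ar fun q => z (Sum.inr q)) f) = (z (Sum.inl ()))⁻¹ ^ k
    rw [inv_pow]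
    exact eq_inv_of_mul_eq_one_right h4
  · rintro z ⟨h2, -, h3, h4⟩
    refine ⟨inv_ne_zero h2, h3, ?_⟩
    change (z (Sum.inl ()))⁻¹ ^ k * PowerSeries.coeff N (aeval (ar fun q => z (Sum.inr q)) f) = 1
    have h5 : PowerSeries.coeff N (aeval (ar fun q => z (Sum.inr q)) f) =
      z (Sum.inl ()) ^ k := h4
    rw [h5, inv_pow]
    exact inv_mul_cancel₀ (pow_ne_zero _ h2)

/-- the zeta function of the covers -/
theorem zetaC_mem {M : Meas ℂ (MK ℂ)} (hL : M.L = ((Lu ℂ : (MK ℂ)ˣ) : MK ℂ))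
    (hχ : ∀ (ι : Type) [Fintype ι] (S : Set (Pt ℂ ι)),
      M.χ ι S = algebraMap (K0 ℂ) (MK ℂ) (cls ι S)) (f : MvPolynomial σ ℂ) (k : ℕ)
    (D : Set (ℤ × ℤ))
    (h : TS M (((Lu ℂ)⁻¹ : (MK ℂ)ˣ) : MK ℂ) k f Set.univ ∈ ratU (Lu ℂ) D) :
    zetaC f k ∈ ratRing ℂ D := by
  have hv : M.L * (((Lu ℂ)⁻¹ : (MK ℂ)ˣ) : MK ℂ) = 1 := by rw [hL, Units.mul_inv]
  set v : MK ℂ := (((Lu ℂ)⁻¹ : (MK ℂ)ˣ) : MK ℂ) with hvd
  set n := Fintype.card σ with hn
  have hid : zetaC f k = PowerSeries.C (M.L ^ (n + 1)) * TS M v k f Set.univ -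
      PowerSeries.C (M.L ^ (n + 1) * PowerSeries.coeff 0 (TS M v k f Set.univ)) := by
    ext N
    rw [map_sub, PowerSeries.coeff_C_mul, PowerSeries.coeff_C]
    unfold zetaC
    rw [PowerSeries.coeff_mk]
    rcases Nat.eq_zero_or_pos N with rfl | hN
    · rw [if_pos rfl, if_pos rfl, sub_self]
    · rw [if_neg hN.ne', if_neg hN.ne', sub_zero, ← hχ]
      unfold TS
      rw [coeff_OW]
      unfold ovol
      rw [chi_JetC_JO, Fintype.card_option, ← hn]
      have h1 : (((Lu ℂ) ^ (-((n * N : ℕ) : ℤ)) : (MK ℂ)ˣ) : MK ℂ) = v ^ (n * N) := by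
        rw [zpow_neg, zpow_natCast, ← inv_pow, Units.val_pow_eq_pow_val]
      have h2 : M.L ^ (n + 1) * v ^ (n + 1) = 1 := by rw [← mul_pow, hv, one_pow]
      have h3 : M.L ^ N * v ^ N = 1 := by rw [← mul_pow, hv, one_pow]
      have h4 : v ^ ((n + 1) * (N + 1)) = v ^ (n * N) * v ^ N * v ^ (n + 1) := by
        rw [← pow_add, ← pow_add]
        congr 1
        ring
      rw [h1, h4]
      linear_combination (-(M.χ _ (JetC f k N)) * v ^ (n * N)) * h3 -
        (M.χ _ (JetC f k N) * v ^ (n * N) * (M.L ^ N * v ^ N)) * h2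
  rw [hid]
  exact Subalgebra.sub_mem _ (Subalgebra.mul_mem _ (rat_C _ _) h) (rat_C _ _)

end

end Pool.Agent.H1.TG
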