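import Pool.Agent.H1.TG.Fib
import Pool.Agent.H1.VT.Gen

set_option autoImplicit false
set_option linter.unusedSectionVars false
set_option linter.unusedVariables false

/-! # The covers over the general points -/

namespace Pool.Agent.H1.TG

open MvPolynomial Pool.Agent.W428.MOT Pool.Agent.TH192.MT Pool.Agent.TH192.DT Pool.Agent.Q49.CO
open Pool.Agent.Y229 Pool.Agent.Q57.MC Pool.Agent.Q57.MD
open Pool.Agent.H1.TB
open Pool.Agent.H1.QB (GQ coeff1_mul)

section gen

variable {K : Type} [Field K] {N : Type} [Fintype N] [DecidableEq N]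
variable {R : Type} [CommRing R] (M : Meas K R)

/-- **Changes of variables over an open subset of the line, for the covers.** -/
theorem chi_openY {L k : ℕ} (α : Matrix N N (Polynomial K)) (β : N → Polynomial K)
    (w D : Polynomial K) (hw : α.det ∣ w) (hDw : D ∣ w) (f h : MvPolynomial (Option N) K)
    (hf : pt D ^ k * f = aeval (opt (aff α β)) h) :
    M.χ _ (JO (yk k f) (Wy (Dw N w)) L L) = M.χ _ (JO (yk k h) (Wy (Dw N w)) L L) := by
  have hcomp : ∀ (z : Pt K (Option N × Fin (L + 1))) (ξ : Option N → MvPolynomial (Option N) K)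
      (P : MvPolynomial (Option N) K),
      aeval (fun o => aeval (ar z) (ξ o)) P = aeval (ar z) (aeval ξ P) := by
    intro z ξ P
    rw [← AlgHom.comp_apply]
    congr 1
    refine algHom_ext fun i => ?_
    rw [AlgHom.comp_apply, aeval_X, aeval_X]
  have hu : ∀ (P : MvPolynomial (Option N) K), (∀ z ∈ Dw N w, aeval z P ≠ 0) →
      ∀ z : Pt K (Option N × Fin (L + 1)), (fun i => z (i, 0)) ∈ Dw N w →
        PowerSeries.coeff 0 (aeval (ar z) P) ≠ 0 := by
    intro P hP z hz
    rw [coeff_zero_aevalK]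
    have h1 : (fun i => PowerSeries.coeff 0 (ar z i)) = fun i => z (i, 0) := by
      funext i
      rw [coeff_ar_zero]
    rw [h1]
    exact hP _ hz
  have hdvd : ∀ u : Polynomial K, u ∣ w → ∀ z ∈ Dw N w,
      aeval z (pt u : MvPolynomial (Option N) K) ≠ 0 := by
    rintro u ⟨q, rfl⟩ z hz h0
    apply hz
    rw [aeval_pt'] at h0
    rw [map_mul, h0, zero_mul]
  set δ : MvPolynomial (Option N) K := pt α.det with hδ
  have hδ0 : ∀ z ∈ Dw N w, aeval z δ ≠ 0 := hdvd _ hw
  have hD0 : ∀ z ∈ Dw N w, aeval z (pt D : MvPolynomial (Option N) K) ≠ 0 := hdvd _ hDw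
  set B : Pt K (Option N × Fin (L + 1)) → Option N → PowerSeries (AlgebraicClosure K) :=
    fun z o => o.elim (ar z none) fun k => aeval (ar z) (adj α β k) * (aeval (ar z) δ)⁻¹ with hB
  have hor : ∀ z : Pt K (Option N × Fin (L + 1)), ∀ F : Option N →
      PowerSeries (AlgebraicClosure K), F none = ar z none → (fun i => z (i, 0)) ∈ Dw N w →
      (fun i => PowerSeries.coeff 0 (F i)) ∈ Dw N w := by
    intro z F hF hz
    change Polynomial.aeval (PowerSeries.coeff 0 (F none)) w ≠ 0
    rw [hF, coeff_ar_zero]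
    exact hz
  set b : Pt K (Option N × Fin (L + 1)) → AlgebraicClosure K := fun z =>
    aeval (fun i => z (i, 0)) (pt D : MvPolynomial (Option N) K) with hb
  have hbPF : IsPF b := (IsPF.poly (pt D : MvPolynomial (Option N) K)).comp
    (fun (z : Pt K (Option N × Fin (L + 1))) (i : Option N) => z (i, 0)) fun i => IsPF.coord _
  have hb' : ∀ z, b z = Polynomial.aeval (z (none, 0)) D := fun z => aeval_pt' _ _
  refine chi_covY M f h (constr_Dw w) (constr_Dw w)
    (fun z o => aeval (ar z) (opt (aff α β) o)) B (fun z => (b z)⁻¹) b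
    (fun o => ra_poly _ (fun z => z) (fun i => IsPF.coord _) _) (fun o => ?_)
    (rf_inv (hbPF.isRF _) fun z hz => hD0 _ hz) (hbPF.isRF _) ?_ ?_ ?_ ?_ ?_ ?_ ?_
  · rcases o with _ | k
    · have h1 := ra_poly {z : Pt K (Option N × Fin (L + 1)) | (fun i => z (i, 0)) ∈ Dw N w}
        (fun z => z) (fun i => IsPF.coord _) (X none : MvPolynomial (Option N) K)
      simp only [aeval_X] at h1
      exact h1
    · exact ra_mul (ra_poly _ (fun z => z) (fun i => IsPF.coord _) _)
        (ra_inv (ra_poly _ (fun z => z) (fun i => IsPF.coord _) _) fun z hz => hu δ hδ0 z hz)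
  · intro z hz
    exact hor z _ (aeval_X _ _) hz
  · intro z hz
    exact hor z _ rfl hz
  · intro z hz o
    set A : Option N → PowerSeries (AlgebraicClosure K) :=
      fun o => aeval (ar z) (opt (aff α β) o) with hA
    have hyA : ∀ o, Cg L (ar (tj L A) o) (A o) := ar_tj L A
    have hAn : A none = ar z none := by
      rw [hA]
      exact aeval_X _ _
    have hyW : (fun i => tj L A (i, 0)) ∈ Dw N w := hor z A hAn hz
    rcases o with _ | k
    · change Cg L (ar (tj L A) none) (ar z none)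
      rw [← hAn]
      exact hyA none
    · refine cg_cancel (hu δ hδ0 _ hyW) ?_
      have h1 : aeval (ar (tj L A)) δ * B (tj L A) (some k) = aeval (ar (tj L A)) (adj α β k) := by
        change aeval (ar (tj L A)) δ * (aeval (ar (tj L A)) (adj α β k) *
          (aeval (ar (tj L A)) δ)⁻¹) = _
        rw [mul_left_comm, mul_inv_ps (hu δ hδ0 _ hyW), mul_one]
      rw [h1]
      refine cg_trans (cg_aevalK (adj α β k) L _ _ hyA) ?_
      rw [hA, hcomp, adj_aff, map_mul, aeval_X]
      refine Pool.Agent.H1.TB.cg_mul (cg_symm ?_) (cg_refl _)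
      have h2 := cg_aevalK δ L _ _ hyA
      rw [hA, hcomp, hδ, opt_pt, ← hδ, ← hA] at h2
      exact h2
  · intro z hz o
    refine cg_trans (cg_aevalK (opt (aff α β) o) L _ _ (ar_tj L (B z))) ?_
    rcases o with _ | j
    · change Cg L (aeval (B z) (X none : MvPolynomial (Option N) K)) _
      rw [aeval_X]
      exact cg_refl _
    · have h3 : ∀ c : Polynomial K, aeval (B z) (pt c : MvPolynomial (Option N) K) =
          aeval (ar z) (pt c) := by
        intro c
        rw [aeval_pt', aeval_pt']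
        rfl
      have h1 : aeval (B z) (aff α β j) = ar z (some j) := by
        have h4 := congrArg (aeval (ar z)) (aff_adj α β j)
        rw [map_sum, map_mul, map_sub, aeval_X] at h4
        simp only [map_mul] at h4
        unfold aff
        rw [map_add, map_sum, h3]
        simp only [map_mul, h3, aeval_X]
        have h5 : ∀ k, aeval (ar z) (pt (α j k)) * B z (some k) =
            (aeval (ar z) (pt (α j k)) * aeval (ar z) (adj α β k)) * (aeval (ar z) δ)⁻¹ := by
          intro k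
          change _ * (aeval (ar z) (adj α β k) * (aeval (ar z) δ)⁻¹) = _
          ring
        simp only [h5]
        rw [← Finset.sum_mul, h4]
        have h6 := mul_inv_ps (hu δ hδ0 z hz)
        linear_combination (ar z (some j) - aeval (ar z) (pt (β j))) * h6
      change Cg L (aeval (B z) (aff α β j)) _
      rw [h1]
      exact cg_refl _
  · intro z hz
    have h1 : b (tj L fun o => aeval (ar z) (opt (aff α β) o)) = b z := by
      have h2 : tj L (fun o => aeval (ar z) (opt (aff α β) o)) (none, 0) = z (none, 0) := by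
        change PowerSeries.coeff 0 (aeval (ar z) (X none : MvPolynomial (Option N) K)) = _
        rw [aeval_X, coeff_ar_zero]
      rw [hb', hb', h2]
    rw [h1]
    exact mul_inv_cancel₀ (hD0 _ hz)
  · intro z hz
    have h1 : b (tj L (B z)) = b z := by
      have h2 : tj L (B z) (none, 0) = z (none, 0) := by
        change PowerSeries.coeff 0 (ar z none) = _
        rw [coeff_ar_zero]
      rw [hb', hb', h2]
    rw [h1]
    exact inv_mul_cancel₀ (hD0 _ hz)
  · intro z hz
    have e4 := hcomp z (opt (aff α β)) h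
    have e5 : aeval (ar z) (aeval (opt (aff α β)) h) =
        aeval (ar z) (pt D) ^ k * aeval (ar z) f := by
      rw [← hf, map_mul, map_pow]
    have e6 : PowerSeries.coeff 0 (aeval (ar z) (pt D : MvPolynomial (Option N) K)) = b z := by
      rw [coeff_zero_aevalK]
      have h1 : (fun i => PowerSeries.coeff 0 (ar z i)) = fun i => z (i, 0) := by
        funext i
        rw [coeff_ar_zero]
      rw [h1]
    have e7 : PowerSeries.coeff 0 (aeval (ar z) (pt D : MvPolynomial (Option N) K) ^ k) ≠ 0 := by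
      rw [PowerSeries.coeff_zero_eq_constantCoeff_apply, map_pow,
        ← PowerSeries.coeff_zero_eq_constantCoeff_apply]
      exact pow_ne_zero _ (hu _ hD0 z hz)
    rw [e4, e5]
    refine ⟨(vn_unit e7).symm, fun h5 => ?_⟩
    rw [coeff_pow_mul _ _ _ h5, e6, ← mul_assoc, ← mul_pow, inv_mul_cancel₀ (hD0 _ hz), one_pow,
      one_mul]

end gen

section

variable {M : Meas ℂ (MK ℂ)} (hL : M.L = ((Lu ℂ : (MK ℂ)ˣ) : MK ℂ))
variable {N : Type} [Fintype N] [DecidableEq N] {T : Type} [Fintype T] [DecidableEq T]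
include hL

/-- **The generic models.** -/
theorem gmd_rat (k : ℕ) (ι : T → N) (hι : Function.Injective ι) (e : T → ℕ)
    (he : ∀ j, 0 < e j ∧ e j ≤ 2) (U : T → Polynomial ℂ) (w : Polynomial ℂ) (hw : w ≠ 0)
    (hU : ∀ j t, w.eval t ≠ 0 → (U j).eval t ≠ 0) (c : Polynomial ℂ)
    (hc : c ≠ 0 → ∀ t, w.eval t ≠ 0 → c.eval t ≠ 0) (h : Nonempty T ∨ c ≠ 0) :
    ∃ Q : Finset (ℤ × ℤ), (∀ q ∈ Q, q.1 < 0 ∧ 0 < q.2 ∧ ∃ p : Option N → ℂ,
      w.eval (p none) ≠ 0 ∧ SF (fun _ : Fin 1 => gmd ι e U c) p ((q.1 : ℂ) / q.2)) ∧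
      TS M (((Lu ℂ)⁻¹ : (MK ℂ)ˣ) : MK ℂ) k (gmd ι e U c) (Dw N w) ∈
        ratU (Lu ℂ) (Q : Set (ℤ × ℤ)) := by
  classical
  have hv : M.L * (((Lu ℂ)⁻¹ : (MK ℂ)ˣ) : MK ℂ) = 1 := by rw [hL, Units.mul_inv]
  by_cases hA : c ≠ 0 ∨ ∃ j, e j = 1
  · obtain ⟨Q, hQ, hz⟩ := ts_smooth hL k (gmd ι e U c) (Dw N w) (constr_Dw w) fun p hp hz => by
      rw [cpt_Dw] at hp
      by_contra hcon
      push Not at hcon
      have h1 : ∀ j, (e j : ℂ) * p (some (ι j)) ^ (e j - 1) = 0 := by
        intro j
        have h2 := hcon (some (ι j))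
        rw [pderiv_gmd ι hι] at h2
        exact (mul_eq_zero.1 h2).resolve_left (hU j _ hp)
      have h2 : ∀ j, e j ≠ 1 := by
        intro j hj
        have h3 := h1 j
        rw [hj, Nat.sub_self, pow_zero, Nat.cast_one, mul_one] at h3
        exact one_ne_zero h3
      have h3 : c ≠ 0 := hA.resolve_right fun ⟨j, hj⟩ => h2 j hj
      rw [eval_gmd, Finset.sum_eq_zero, zero_add] at hz
      · exact hc h3 _ hp hz
      · intro j _
        have h4 : e j = 2 := by
          have := he j
          have := h2 j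
          omega
        have h5 := h1 j
        rw [h4] at h5
        have h6 : p (some (ι j)) = 0 := by simpa using h5
        rw [h6, h4]
        simp
    exact ⟨Q, fun q hq => by
      obtain ⟨h1, h2, p, h3, h4⟩ := hQ q hq
      exact ⟨h1, h2, p, (cpt_Dw w p).1 h3, h4⟩, hz⟩
  · push Not at hA
    obtain ⟨rfl, he1⟩ := hA
    have he2 : e = fun _ => 2 := by
      funext j
      have := he j
      have := he1 j
      omega
    subst he2
    have hT : Nonempty T := h.resolve_right (fun h => h rfl)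
    set f := gmd ι (fun _ => 2) U 0 with hf
    set S : Finset (Option N) := Finset.univ.image fun j => some (ι j) with hS
    have hScard : S.card = Fintype.card T := by
      rw [hS, Finset.card_image_of_injective _ fun i j hij => hι (Option.some_injective _ hij),
        Finset.card_univ]
    have hnS : none ∉ S := by simp [hS]
    obtain ⟨Q, hQ, hz⟩ := ts_smooth hL k f (Dw N w ∩ (CT ℂ S)ᶜ)
      ((constr_Dw w).inter (constr_CT S).compl) fun p hp _ => by
      have hp1 := (cpt_Dw w p).1 hp.1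
      by_contra hcon
      push Not at hcon
      refine hp.2 fun i hi => ?_
      obtain ⟨j, -, rfl⟩ := Finset.mem_image.1 hi
      have h2 := hcon (some (ι j))
      rw [hf, pderiv_gmd ι hι] at h2
      have h3 := (mul_eq_zero.1 h2).resolve_left (hU j _ hp1)
      have h6 : p (some (ι j)) = 0 := by simpa using h3
      change algebraMap ℂ (AlgebraicClosure ℂ) (p (some (ι j))) = 0
      rw [h6, map_zero]
    obtain ⟨t, ht⟩ : ∃ t, w.eval t ≠ 0 := by
      by_contra hcon
      push Not at hcon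
      exact hw (Polynomial.funext fun t => by rw [hcon, Polynomial.eval_zero])
    refine ⟨insert (-(S.card : ℤ), 2) Q, fun q hq => ?_, ?_⟩
    · rcases Finset.mem_insert.1 hq with rfl | hq
      · refine ⟨?_, by norm_num, fun o => o.elim t fun _ => 0, ht, ?_⟩
        · simp only
          have := Fintype.card_pos (α := T)
          omega
        · simp only
          have h1 := sf_gmd ι hι U t fun j => hU j _ ht
          rw [hScard]
          push_cast
          exact h1
      · obtain ⟨h1, h2, p, h3, h4⟩ := hQ q hq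
        exact ⟨h1, h2, p, (cpt_Dw w p).1 h3.1, h4⟩
    · have hc' : TS M (((Lu ℂ)⁻¹ : (MK ℂ)ˣ) : MK ℂ) k f (Dw N w ∩ (CT ℂ S)ᶜ) ∈
          ratU (Lu ℂ) ((insert (-(S.card : ℤ), 2) Q : Finset (ℤ × ℤ)) : Set (ℤ × ℤ)) :=
        rat_mono (Lu ℂ) (fun q hq => Finset.mem_coe.2 (Finset.mem_insert_of_mem
          (Finset.mem_coe.1 hq))) hz
      have h3 : TS M (((Lu ℂ)⁻¹ : (MK ℂ)ˣ) : MK ℂ) k f (CT ℂ S ∩ Dw N w) ∈
          ratU (Lu ℂ) ((insert (-(S.card : ℤ), 2) Q : Finset (ℤ × ℤ)) : Set (ℤ × ℤ)) := by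
        refine ts_cone hL S f 2 two_pos (ht_gmd ι U) (constr_Dw w) (fun z z' hzz hz => ?_) _ ?_ hc'
        · change Polynomial.aeval (z' none) w ≠ 0
          rw [hzz none hnS]
          exact hz
        · exact Finset.mem_coe.2 (Finset.mem_insert_self _ _)
      have h4 : Dw N w = (Dw N w ∩ (CT ℂ S)ᶜ) ∪ (CT ℂ S ∩ Dw N w) := by
        ext z
        simp only [Set.mem_union, Set.mem_inter_iff, Set.mem_compl_iff]
        tauto
      rw [h4, TS_add M f ((constr_Dw w).inter (constr_CT S).compl)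
        ((constr_CT S).inter (constr_Dw w))
        (Set.disjoint_left.2 fun z h h' => h.2 h'.1)]
      exact Subalgebra.add_mem _ hc' h3

/-- **Quadric bundles over the general points.** -/
theorem gen_rat (k : ℕ) (hk0 : 0 < k) (c : Polynomial ℂ) (b : N → Polynomial ℂ)
    (q : N → N → Polynomial ℂ) (hq : ∀ j k, q j k = q k j) (hne : qb c b q ≠ 0) :
    ∃ (w : Polynomial ℂ) (Q : Finset (ℤ × ℤ)), w ≠ 0 ∧
      (∀ x ∈ Q, x.1 < 0 ∧ 0 < x.2 ∧ ∃ p : Option N → ℂ,
        SF (fun _ : Fin 1 => qb c b q) p ((x.1 : ℂ) / x.2)) ∧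
      TS M (((Lu ℂ)⁻¹ : (MK ℂ)ˣ) : MK ℂ) k (qb c b q) (Dw N w) ∈
        ratU (Lu ℂ) (Q : Set (ℤ × ℤ)) := by
  classical
  obtain ⟨T, _, ι, e, U, α, β, c', D, hι, he, hU, hα, hD, heq⟩ := exists_gd c b q hq
  have heq' : pt D * qb c b q = aeval (opt (aff α β)) (gmd ι e U c') := heq
  set w : Polynomial ℂ := D * α.det * (∏ j, U j) * (if c' = 0 then 1 else c') with hw
  have hw0 : w ≠ 0 := by
    refine mul_ne_zero (mul_ne_zero (mul_ne_zero hD hα)
      (Finset.prod_ne_zero_iff.2 fun j _ => hU j)) ?_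
    split_ifs with h
    · exact one_ne_zero
    · exact h
  have hDw : D ∣ w := ⟨α.det * (∏ j, U j) * (if c' = 0 then 1 else c'), by rw [hw]; ring⟩
  have hαw : α.det ∣ w := ⟨D * (∏ j, U j) * (if c' = 0 then 1 else c'), by rw [hw]; ring⟩
  have hUw : ∀ j, U j ∣ w := by
    intro j
    obtain ⟨z, hz⟩ := Finset.dvd_prod_of_mem U (Finset.mem_univ j)
    exact ⟨D * α.det * z * (if c' = 0 then 1 else c'), by rw [hw, hz]; ring⟩
  have hcw : c' ≠ 0 → c' ∣ w := by
    intro h
    rw [hw, if_neg h]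
    exact dvd_mul_left _ _
  have hT : Nonempty T ∨ c' ≠ 0 := by
    by_contra hcon
    push Not at hcon
    obtain ⟨h1, h2⟩ := hcon
    have h3 : gmd ι e U c' = 0 := by
      unfold gmd
      rw [Finset.sum_of_isEmpty, zero_add, h2, pt_zero]
    rw [h3, map_zero] at heq'
    have h4 : (pt D : MvPolynomial (Option N) ℂ) ≠ 0 := by
      intro h0
      obtain ⟨t, ht⟩ : ∃ t, D.eval t ≠ 0 := by
        by_contra hcon
        push Not at hcon
        exact hD (Polynomial.funext fun t => by rw [hcon, Polynomial.eval_zero])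
      have h5 := eval_pt (N := N) (fun _ => t) D
      rw [h0, map_zero] at h5
      exact ht h5.symm
    exact hne ((mul_eq_zero.1 heq').resolve_left h4)
  have hdv : ∀ u : Polynomial ℂ, u ∣ w → ∀ t, w.eval t ≠ 0 → u.eval t ≠ 0 := by
    rintro u ⟨z, hz⟩ t ht h0
    rw [hz, Polynomial.eval_mul, h0, zero_mul] at ht
    exact ht rfl
  obtain ⟨k', rfl⟩ : ∃ k', k = k' + 1 := ⟨k - 1, by omega⟩
  have hptm : ∀ x y : Polynomial ℂ, (pt (x * y) : MvPolynomial (Option N) ℂ) = pt x * pt y := by
    intro x y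
    unfold pt
    rw [map_mul]
  have hptp : ∀ (x : Polynomial ℂ) (n : ℕ), (pt (x ^ n) : MvPolynomial (Option N) ℂ) =
      pt x ^ n := by
    intro x n
    unfold pt
    rw [map_pow]
  have hg : gmd ι e (fun j => D ^ k' * U j) (D ^ k' * c') = pt D ^ k' * gmd ι e U c' := by
    unfold gmd
    simp only [hptm, hptp, mul_add, Finset.mul_sum, mul_assoc]
  have heq2 : pt D ^ (k' + 1) * qb c b q =
      aeval (opt (aff α β)) (gmd ι e (fun j => D ^ k' * U j) (D ^ k' * c')) := by
    rw [hg, map_mul, map_pow, opt_pt, ← heq']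
    ring
  have hU' : ∀ j t, w.eval t ≠ 0 → (D ^ k' * U j).eval t ≠ 0 := by
    intro j t ht
    rw [Polynomial.eval_mul, Polynomial.eval_pow]
    exact mul_ne_zero (pow_ne_zero _ (hdv _ hDw _ ht)) (hdv _ (hUw j) _ ht)
  have hDk : D ^ k' ≠ 0 := pow_ne_zero _ hD
  have hc'' : D ^ k' * c' ≠ 0 → ∀ t, w.eval t ≠ 0 → (D ^ k' * c').eval t ≠ 0 := by
    intro h t ht
    rw [Polynomial.eval_mul, Polynomial.eval_pow]
    exact mul_ne_zero (pow_ne_zero _ (hdv _ hDw _ ht))
      (hdv _ (hcw (right_ne_zero_of_mul h)) _ ht)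
  have hT' : Nonempty T ∨ D ^ k' * c' ≠ 0 := hT.imp id fun h => mul_ne_zero hDk h
  obtain ⟨Q, hQ, hz⟩ := gmd_rat hL (k' + 1) ι hι e he (fun j => D ^ k' * U j) w hw0 hU'
    (D ^ k' * c') hc'' hT'
  refine ⟨w, Q, hw0, fun x hx => ?_, ?_⟩
  · obtain ⟨h1, h2, p, h3, h4⟩ := hQ x hx
    obtain ⟨p', h5⟩ := sf_open α β (qb c b q)
      (gmd ι e (fun j => D ^ k' * U j) (D ^ k' * c')) (D ^ (k' + 1))
      (gmd_ne ι hι e (fun j => (he j).1) _ (fun j => mul_ne_zero hDk (hU j)) _ hT')
      (by rw [hptp]; exact heq2) p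
      (by rw [Polynomial.eval_pow]; exact pow_ne_zero _ (hdv _ hDw _ h3)) (hdv _ hαw _ h3) _ h4
    exact ⟨h1, h2, p', h5⟩
  · rw [TS_congr M _ rfl (qb c b q) (gmd ι e (fun j => D ^ k' * U j) (D ^ k' * c'))
      (Dw N w) (Dw N w) fun L => chi_openY M α β w D hαw hDw (qb c b q) _ heq2]
    exact hz

end

end Pool.Agent.H1.TG
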