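import Pool.Agent.H1.TG.Sp

set_option autoImplicit false
set_option linter.unusedSectionVars false
set_option linter.unusedVariables false

/-! # The series of a polynomial with affinely independent exponents and a power of a unit -/

namespace Pool.Agent.H1.TG

open MvPolynomial Pool.Agent.H628R4.TP Pool.Agent.W425.MM Pool.Agent.W425.GN
open Pool.Agent.W425.ND (spa)
open Pool.Agent.W426.SM (gord IsRay)
open Pool.Agent.W425.SM (Ind)
open Pool.Agent.W425.SV (Kil1)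
open Pool.Agent.TH216.MF (RelG Spread relG_of_relM nonD_of_ind KRelJ RecJ aJ Wt)
open Pool.Agent.TH216.MC (HB hb_ind pos_of_ray)
open Pool.Agent.W428.MOT (Pt Constr Meas sp)
open Pool.Agent.TH192.DT (ratU)

variable {r N : ℕ}

/-- adding a coordinate with the exponent `k` -/
def addc (k : ℕ) (v : Fin r → Fin N → ℕ) (j : Fin r) : Fin (N + 1) → ℕ := Fin.cons k (v j)

theorem addc_zero (k : ℕ) (v : Fin r → Fin N → ℕ) (j : Fin r) : addc k v j 0 = k := rfl

theorem addc_succ (k : ℕ) (v : Fin r → Fin N → ℕ) (j : Fin r) (i : Fin N) :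
    addc k v j i.succ = v j i := rfl

/-- the support without the new coordinate -/
def dn (J : Finset (Fin (N + 1))) : Finset (Fin N) := Finset.univ.filter fun i => i.succ ∈ J

theorem mem_dn {J : Finset (Fin (N + 1))} {i : Fin N} : i ∈ dn J ↔ i.succ ∈ J := by
  simp [dn]

theorem krel_addc {q : ℕ} {k : ℕ} {v : Fin r → Fin N → ℕ} {J : Finset (Fin (N + 1))}
    {e : Finset (Fin r) → ℂ} (h : KRelJ q (addc k v) J e) : KRelJ q v (dn J) e :=
  fun i hi j0 τ h1 h2 => h i.succ (mem_dn.1 hi) j0 τ h1 h2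

theorem wt_addc (k : ℕ) (v : Fin r → Fin N → ℕ) (e : Finset (Fin r) → ℂ) (t : ℤ)
    (x : Fin N → ℕ) : Wt (addc k v) e t (Fin.cons 0 x) = Wt v e t x := by
  unfold Wt
  simp only [Fin.sum_univ_succ, Fin.cons_zero, Fin.cons_succ, zero_mul, zero_add, addc_succ]

theorem aJ_addc {q : ℕ} {k : ℕ} {v : Fin r → Fin N → ℕ} {J : Finset (Fin (N + 1))}
    (h0 : 0 ∉ J) (e : Finset (Fin r) → ℂ) (t : ℤ) :
    aJ q (addc k v) e J t = aJ q v e (dn J) t := by
  classical
  unfold aJ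
  have hinj : Function.Injective fun x : Fin N → ℕ => (Fin.cons 0 x : Fin (N + 1) → ℕ) := by
    intro x y h
    have h1 := congrArg Fin.tail h
    simpa [Fin.tail_cons] using h1
  rw [← hinj.tsum_eq]
  · refine tsum_congr fun x => ?_
    rw [wt_addc, Fin.sum_univ_succ, Fin.cons_zero, zero_add]
    simp only [Fin.cons_succ]
    have h1 : (∀ i : Fin (N + 1), (Fin.cons 0 x : Fin (N + 1) → ℕ) i ≠ 0 ↔ i ∈ J) ↔
        ∀ i, x i ≠ 0 ↔ i ∈ dn J := by
      constructor
      · intro h i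
        rw [mem_dn, ← h i.succ, Fin.cons_succ]
      · intro h i
        refine Fin.cases ?_ (fun i => ?_) i
        · simp [h0]
        · rw [Fin.cons_succ, h i, mem_dn]
    by_cases h2 : ∀ i, x i ≠ 0 ↔ i ∈ dn J
    · rw [if_pos h2, if_pos (h1.2 h2)]
    · rw [if_neg h2, if_neg fun h => h2 (h1.1 h)]
  · intro x hx
    rw [Function.mem_support] at hx
    refine ⟨Fin.tail x, ?_⟩
    have h2 : ∀ i, x i ≠ 0 ↔ i ∈ J := by
      by_contra hcon
      apply hx
      rw [if_neg hcon]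
    have h3 : x 0 = 0 := by
      by_contra h
      exact h0 ((h2 0).1 h)
    simp only
    rw [← h3]
    exact Fin.cons_self_tail x

theorem rec_addc {q : ℕ} {k : ℕ} {v : Fin r → Fin N → ℕ} {J : Finset (Fin (N + 1))}
    (h0 : 0 ∉ J) {e : Finset (Fin r) → ℂ} {T0 : ℂ} (h : RecJ q v e (dn J) T0) :
    RecJ q (addc k v) e J T0 := by
  obtain ⟨Q, h1, h2⟩ := h
  refine ⟨Q, h1, ?_⟩
  filter_upwards [h2] with t ht
  rw [← ht]
  refine Finset.sum_congr rfl fun m _ => ?_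
  rw [aJ_addc h0]

theorem ind_addc (k : ℕ) {v : Fin r → Fin N → ℕ} (hv : Ind v) : Ind (addc k v) := by
  unfold Ind at hv ⊢
  rw [affineIndependent_iff_of_fintype] at hv ⊢
  intro w hw hs j
  refine hv w hw ?_ j
  rw [Finset.weightedVSub_eq_weightedVSubOfPoint_of_sum_eq_zero _ _ _ hw
      (0 : Fin (N + 1) → ℚ), Finset.weightedVSubOfPoint_apply] at hs
  rw [Finset.weightedVSub_eq_weightedVSubOfPoint_of_sum_eq_zero _ _ _ hw
      (0 : Fin N → ℚ), Finset.weightedVSubOfPoint_apply]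
  funext i
  have h1 := congrFun hs i.succ
  rw [Finset.sum_apply, Pi.zero_apply] at h1 ⊢
  rw [← h1]
  rfl

theorem spa_addc (k : ℕ) (v : Fin r → Fin N → ℕ) (c : Fin r → ℂ) :
    spa (addc k v) c = X 0 ^ k * rename Fin.succ (spa v c) := by
  unfold spa
  rw [map_sum, Finset.mul_sum]
  refine Finset.sum_congr rfl fun j _ => ?_
  rw [map_mul, rename_C, map_prod, Fin.prod_univ_succ]
  simp only [map_pow, rename_X]
  rw [addc_zero]
  simp only [addc_succ]
  ring

/-- **Affinely independent exponents and a power of a unit.** -/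
theorem ospa (hr : 2 ≤ r) (k : ℕ) (v : Fin r → Fin N → ℕ) (hv : Ind v) (c : Fin r → ℂ)
    (hc : ∀ j, c j ≠ 0) :
    ∃ S : Finset (ℤ × ℤ),
      (∀ p ∈ S, p.1 < 0 ∧ 0 < p.2 ∧ ∀ b : Polynomial ℂ, IsBFunction (spa v c) b →
        b.eval ((p.1 : ℂ) / p.2) = 0) ∧
      ∀ {R : Type} [CommRing R] (M : Meas ℂ R) (u : Rˣ), M.L = (u : R) →
      ∀ (W : Set (Pt ℂ (Fin (N + 1)))), Constr W → (∀ z ∈ W, z 0 ≠ 0) →
        OW M ((u⁻¹ : Rˣ) : R) (X 0 ^ k * rename Fin.succ (spa v c)) W ∈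
          ratU u (S : Set (ℤ × ℤ)) := by
  classical
  have hr0 : 0 < r := by omega
  set f : MvPolynomial (Fin N) ℂ := spa v c with hf
  have hnd : NonD (addc k v) c := nonD_of_ind hr0 (addc k v) (ind_addc k hv) _ hc
  have hA : ∀ b : Polynomial ℂ, IsBFunction f b → ∃ P, b = (Polynomial.X + 1) * P ∧
      RelG v (Kil1 v) (Spread v) P := by
    intro b hb
    obtain ⟨P, h1, h2⟩ := Pool.Agent.W525.SM.taskA v _ b hr hv hc hb
    exact ⟨P, h1, relG_of_relM v P h2⟩
  have hB : HB v fun σ => ∃ b, IsBFunction f b ∧ b.eval (-(σ : ℂ)) ≠ 0 := by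
    rintro J q hq e he T0 hT0 σ ⟨b, hb, hne⟩ hlog
    obtain ⟨P, h1, h2⟩ := hA b hb
    refine hb_ind v P h2 J q hq e he T0 hT0 σ ?_ hlog
    intro h3
    apply hne
    rw [h1, Polynomial.eval_mul, h3, mul_zero]
  obtain ⟨S, hS, hz⟩ := o_bad (addc k v) hr0 0
    (fun σ => ∃ b, IsBFunction f b ∧ b.eval (-(σ : ℂ)) ≠ 0)
    (fun J hJ q hq e he T0 hT0 σ hσ hlog =>
      rec_addc hJ (hB (dn J) q hq e (krel_addc he) T0 hT0 σ hσ hlog))
  have hsp : spa (addc k v) c = sp 0 (addc k v) c 1 := by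
    unfold sp spa
    simp
  refine ⟨S, fun p hp => ?_, ?_⟩
  · rcases hS p hp with rfl | ⟨a, ha, hg, hn, rfl⟩
    · refine ⟨by norm_num, by norm_num, fun b hb => ?_⟩
      obtain ⟨P, h1, -⟩ := hA b hb
      rw [h1, Polynomial.eval_mul]
      simp
    · refine ⟨pos_of_ray ha, Int.natCast_pos.2 hg, fun b hb => ?_⟩
      by_contra hne
      apply hn
      refine ⟨b, hb, ?_⟩
      have e : -((((∑ i, a i : ℕ) : ℚ) / gord (addc k v) a : ℚ) : ℂ) =
          ((-((∑ i, a i : ℕ) : ℤ) : ℤ) : ℂ) / ((gord (addc k v) a : ℤ) : ℂ) := by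
        push_cast
        ring
      rw [e]
      exact hne
  · intro R _ M u hL W hW h0
    rw [hf, ← spa_addc, hsp]
    refine hz ℂ c (nonG_of_nonD _ _ ?_) hc M u hL W hW h0
    exact nonD_ext (k := ℂ) (L := AlgebraicClosure ℂ) _ _ hnd

end Pool.Agent.H1.TG
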