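import Pool.Agent.H1.TG.Sm
import Pool.Agent.H1.TG.Sp2
import Pool.Agent.H1.TB.MR

set_option autoImplicit false
set_option linter.unusedSectionVars false
set_option linter.unusedVariables false

/-! # The covers of the model polynomials along the fibre -/

namespace Pool.Agent.H1.TG

open MvPolynomial Pool.Agent.W428.MOT Pool.Agent.TH192.MT Pool.Agent.TH192.DT Pool.Agent.Q49.CO
open Pool.Agent.Y229 Pool.Agent.Q57.MC Pool.Agent.Q57.MD
open Pool.Agent.H1.TB
open Pool.Agent.W425.ND (spa)
open Pool.Agent.W425.SM (Ind)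
open Pool.Agent.H628R4.TP (IsBFunction)

section ren

variable {K : Type} [Field K] {R : Type} [CommRing R] (M : Meas K R) (v : R)
  {σ τ : Type} [Fintype σ] [Fintype τ]

/-- names of the variables -/
theorem OW_ren (e : σ ≃ τ) (F : MvPolynomial σ K) {W : Set (Pt K σ)} (hW : Constr W) :
    OW M v (rename e F) {z : Pt K τ | (fun i => z (e i)) ∈ W} = OW M v F W := by
  have hW' : Constr {z : Pt K τ | (fun i => z (e i)) ∈ W} :=
    hW.preimage (fun (z : Pt K τ) (i : σ) => z (e i)) fun i => IsPF.coord _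
  ext N
  rw [coeff_OW, coeff_OW]
  unfold ovol
  rw [Fintype.card_congr e]
  congr 1
  have har : ∀ z : Pt K (τ × Fin (N + 1)), aeval (ar z) (rename e F) =
      aeval (ar (fun q : σ × Fin (N + 1) => z (e q.1, q.2))) F := by
    intro z
    rw [aeval_rename]
    rfl
  refine M.iso _ _ (constr_JO _ hW' N N) (constr_JO _ hW N N)
    (fun z q => z (e q.1, q.2)) (fun z q => z (e.symm q.1, q.2))
    (regularOn_poly (fun i => IsPF.coord _) _) (regularOn_poly (fun i => IsPF.coord _) _)
    ?_ ?_ ?_ ?_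
  · rintro z ⟨h1, h2, h3⟩
    rw [har] at h2 h3
    exact ⟨h1, h2, h3⟩
  · rintro z ⟨h1, h2, h3⟩
    have h4 : (fun q : σ × Fin (N + 1) => (fun q : τ × Fin (N + 1) => z (e.symm q.1, q.2))
        (e q.1, q.2)) = z := by
      funext q
      simp
    refine ⟨?_, ?_, ?_⟩
    · change (fun i => z (e.symm (e i), 0)) ∈ W
      simp only [Equiv.symm_apply_apply]
      exact h1
    · rw [har, h4]
      exact h2
    · rw [har, h4]
      exact h3
  · intro z _
    funext q
    simp
  · intro z _
    funext q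
    simp

end ren

section

variable {M : Meas ℂ (MK ℂ)} (hL : M.L = ((Lu ℂ : (MK ℂ)ˣ) : MK ℂ))
include hL

theorem ht_two {N : Type} [DecidableEq N] (i : N) (m e : ℕ) :
    HT ({none} : Finset (Option N)) (X none ^ m * X (some i) ^ e : MvPolynomial (Option N) ℂ) m ∧
    HT ({some i} : Finset (Option N)) (X none ^ m * X (some i) ^ e : MvPolynomial (Option N) ℂ)
      e := by
  unfold HT
  constructor
  · have h1 := (isWeightedHomogeneous_X ℂ (fun j : Option N =>
      if j ∈ ({none} : Finset (Option N)) then 1 else 0) none).pow m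
    have h2 := (isWeightedHomogeneous_X ℂ (fun j : Option N =>
      if j ∈ ({none} : Finset (Option N)) then 1 else 0) (some i)).pow e
    have h3 := h1.mul h2
    simpa using h3
  · have h1 := (isWeightedHomogeneous_X ℂ (fun j : Option N =>
      if j ∈ ({some i} : Finset (Option N)) then 1 else 0) none).pow m
    have h2 := (isWeightedHomogeneous_X ℂ (fun j : Option N =>
      if j ∈ ({some i} : Finset (Option N)) then 1 else 0) (some i)).pow e
    have h3 := h1.mul h2
    simpa using h3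

theorem cpt_F0 {N : Type} : cpt (0 : Option N → ℂ) ∈ F0 ℂ N := by
  change algebraMap ℂ (AlgebraicClosure ℂ) 0 = 0
  exact map_zero _

/-- the powers of the parameter -/
theorem pow_rat {N : Type} [Fintype N] [DecidableEq N] (k m : ℕ) :
    ∃ Q : Finset (ℤ × ℤ), (∀ q ∈ Q, q.1 < 0 ∧ 0 < q.2 ∧ ∃ p, cpt p ∈ F0 ℂ N ∧
      SF (fun _ : Fin 1 => (X none ^ m : MvPolynomial (Option N) ℂ)) p ((q.1 : ℂ) / q.2)) ∧
      TS M (((Lu ℂ)⁻¹ : (MK ℂ)ˣ) : MK ℂ) k
        (X none ^ m : MvPolynomial (Option N) ℂ) (F0 ℂ N) ∈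
          ratU (Lu ℂ) (Q : Set (ℤ × ℤ)) := by
  classical
  have hT : F0 ℂ N = CT ℂ ({none} : Finset (Option N)) ∩ Set.univ := by
    ext z
    rw [Set.inter_univ]
    constructor
    · intro h i hi
      rw [Finset.mem_singleton.1 hi]
      exact h
    · intro h
      exact h none (Finset.mem_singleton_self _)
  rcases Nat.eq_zero_or_pos m with rfl | hm
  · refine ⟨∅, fun q hq => absurd hq (Finset.notMem_empty q), ?_⟩
    obtain ⟨c, hc⟩ := TS_off M (v := (((Lu ℂ)⁻¹ : (MK ℂ)ˣ) : MK ℂ)) (k := k)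
      (X none ^ 0 : MvPolynomial (Option N) ℂ) (W := F0 ℂ N) fun w _ => by
        rw [pow_zero, map_one]
        exact one_ne_zero
    rw [hc]
    exact rat_C _ _
  · refine ⟨{(-1, (m : ℤ))}, fun q hq => ?_, ?_⟩
    · rw [Finset.mem_singleton.1 hq]
      refine ⟨by norm_num, Int.natCast_pos.2 hm, 0, cpt_F0 hL, ?_⟩
      have h1 := sf_mono_some (σ := Option N) ![none] (fun i j _ => Subsingleton.elim i j)
        ![m] 0 hm
      rw [Fin.prod_univ_one] at h1
      have h2 : (((-1 : ℤ) : ℂ) / ((m : ℤ) : ℂ)) = -1 / (m : ℂ) := by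
        push_cast
        rfl
      simp only [h2]
      exact h1
    · rw [hT]
      refine ts_cone hL {none} _ m hm ?_ Constr.univ (fun _ _ _ _ => trivial) _ ?_ ?_
      · unfold HT
        have h1 := (isWeightedHomogeneous_X ℂ (fun j : Option N =>
          if j ∈ ({none} : Finset (Option N)) then 1 else 0) none).pow m
        simpa using h1
      · simp
      · obtain ⟨c, hc⟩ := TS_off M (v := (((Lu ℂ)⁻¹ : (MK ℂ)ˣ) : MK ℂ)) (k := k)
          (X none ^ m : MvPolynomial (Option N) ℂ)
          (W := Set.univ ∩ (CT ℂ ({none} : Finset (Option N)))ᶜ) fun w hw => by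
            rw [map_pow, aeval_X]
            refine pow_ne_zero _ fun h0 => hw.2 fun i hi => ?_
            rw [Finset.mem_singleton.1 hi]
            exact h0
        rw [hc]
        exact rat_C _ _

/-- the monomials -/
theorem mon_rat {N : Type} [Fintype N] [DecidableEq N] (k : ℕ) (i : N) (m e : ℕ) (he : 0 < e) :
    ∃ Q : Finset (ℤ × ℤ), (∀ q ∈ Q, q.1 < 0 ∧ 0 < q.2 ∧ ∃ p, cpt p ∈ F0 ℂ N ∧
      SF (fun _ : Fin 1 => (X none ^ m * X (some i) ^ e : MvPolynomial (Option N) ℂ)) p
        ((q.1 : ℂ) / q.2)) ∧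
      TS M (((Lu ℂ)⁻¹ : (MK ℂ)ˣ) : MK ℂ) k
        (X none ^ m * X (some i) ^ e : MvPolynomial (Option N) ℂ)
          (F0 ℂ N) ∈ ratU (Lu ℂ) (Q : Set (ℤ × ℤ)) := by
  classical
  set f : MvPolynomial (Option N) ℂ := X none ^ m * X (some i) ^ e with hf
  set Q : Finset (ℤ × ℤ) := {(-1, (e : ℤ))} ∪ (if 0 < m then {(-1, (m : ℤ))} else ∅) with hQ
  have hsf : ∀ j : Fin 2, 0 < ![m, e] j →
      SF (fun _ : Fin 1 => f) (0 : Option N → ℂ) (-1 / ((![m, e] j : ℕ) : ℂ)) := by
    intro j hj
    have h1 := sf_mono_some (σ := Option N) ![none, some i] (fun a b hab => by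
      fin_cases a <;> fin_cases b <;> simp_all) ![m, e] j hj
    rw [Fin.prod_univ_two] at h1
    exact h1
  refine ⟨Q, fun q hq => ?_, ?_⟩
  · rcases Finset.mem_union.1 hq with hq | hq
    · rw [Finset.mem_singleton.1 hq]
      refine ⟨by norm_num, Int.natCast_pos.2 he, 0, cpt_F0 hL, ?_⟩
      have h2 : (((-1 : ℤ) : ℂ) / ((e : ℤ) : ℂ)) = -1 / (e : ℂ) := by
        push_cast
        rfl
      simp only [h2]
      exact hsf 1 he
    · split_ifs at hq with hm
      · rw [Finset.mem_singleton.1 hq]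
        refine ⟨by norm_num, Int.natCast_pos.2 hm, 0, cpt_F0 hL, ?_⟩
        have h2 : (((-1 : ℤ) : ℂ) / ((m : ℤ) : ℂ)) = -1 / (m : ℂ) := by
          push_cast
          rfl
        simp only [h2]
        exact hsf 0 hm
      · exact absurd hq (Finset.notMem_empty q)
  · have hX : Constr {z : Pt ℂ (Option N) | z (some i) ≠ 0} :=
      (Constr.eqz (IsPF.coord (some i))).compl
    have cF0 : Constr (F0 ℂ N) := constr_F0
    -- the part `x ≠ 0`
    have h1 : TS M (((Lu ℂ)⁻¹ : (MK ℂ)ˣ) : MK ℂ) k f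
        (F0 ℂ N ∩ (CT ℂ ({some i} : Finset (Option N)))ᶜ) ∈
          ratU (Lu ℂ) (Q : Set (ℤ × ℤ)) := by
      have e1 : F0 ℂ N ∩ (CT ℂ ({some i} : Finset (Option N)))ᶜ =
          CT ℂ ({none} : Finset (Option N)) ∩ {z : Pt ℂ (Option N) | z (some i) ≠ 0} := by
        ext z
        constructor
        · rintro ⟨h, h'⟩
          refine ⟨fun j hj => ?_, fun h0 => h' fun j hj => ?_⟩
          · rw [Finset.mem_singleton.1 hj]
            exact h
          · rw [Finset.mem_singleton.1 hj]
            exact h0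
        · rintro ⟨h, h'⟩
          exact ⟨h none (Finset.mem_singleton_self _), fun h0 =>
            h' (h0 (some i) (Finset.mem_singleton_self _))⟩
      rw [e1]
      rcases Nat.eq_zero_or_pos m with hm | hm
      · obtain ⟨c, hc⟩ := TS_off M (v := (((Lu ℂ)⁻¹ : (MK ℂ)ˣ) : MK ℂ)) (k := k) f
          (W := CT ℂ ({none} : Finset (Option N)) ∩ {z : Pt ℂ (Option N) | z (some i) ≠ 0})
          fun w hw => by
            rw [hf, hm, pow_zero, one_mul, map_pow, aeval_X]
            exact pow_ne_zero _ hw.2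
        rw [hc]
        exact rat_C _ _
      · refine ts_cone hL {none} _ m hm (ht_two hL i m e).1 hX (fun z w hzw hz => ?_) _ ?_ ?_
        · change w (some i) ≠ 0
          rw [hzw (some i) (by simp)]
          exact hz
        · rw [hQ, if_pos hm]
          simp
        · obtain ⟨c, hc⟩ := TS_off M (v := (((Lu ℂ)⁻¹ : (MK ℂ)ˣ) : MK ℂ)) (k := k) f
            (W := {z : Pt ℂ (Option N) | z (some i) ≠ 0} ∩
              (CT ℂ ({none} : Finset (Option N)))ᶜ)
            fun w hw => by
              rw [hf, map_mul, map_pow, map_pow, aeval_X, aeval_X]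
              refine mul_ne_zero (pow_ne_zero _ fun h0 => hw.2 fun j hj => ?_)
                (pow_ne_zero _ hw.1)
              rw [Finset.mem_singleton.1 hj]
              exact h0
          rw [hc]
          exact rat_C _ _
    have h2 : TS M (((Lu ℂ)⁻¹ : (MK ℂ)ˣ) : MK ℂ) k f
        (CT ℂ ({some i} : Finset (Option N)) ∩ F0 ℂ N) ∈ ratU (Lu ℂ) (Q : Set (ℤ × ℤ)) := by
      refine ts_cone hL {some i} _ e he (ht_two hL i m e).2 cF0 (fun z w hzw hz => ?_) _ ?_ h1
      · change w none = 0
        rw [hzw none (by simp)]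
        exact hz
      · rw [hQ]
        simp
    have h3 : F0 ℂ N = (F0 ℂ N ∩ (CT ℂ ({some i} : Finset (Option N)))ᶜ) ∪
        (CT ℂ ({some i} : Finset (Option N)) ∩ F0 ℂ N) := by
      ext z
      simp only [Set.mem_union, Set.mem_inter_iff, Set.mem_compl_iff]
      tauto
    rw [h3, TS_add M f (cF0.inter (constr_CT _).compl) ((constr_CT _).inter cF0)
      (Set.disjoint_left.2 fun z h h' => h.2 h'.1)]
    exact Subalgebra.add_mem _ h1 h2

/-- **Affinely independent exponents, with arbitrary names of the variables.** -/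
theorem sparse_rat {σ J : Type} [Fintype σ] [DecidableEq σ] [Fintype J] (k : ℕ) (E : J → σ → ℕ)
    (hE : ∀ w : J → ℚ, ∑ j, w j = 0 → (∀ i, ∑ j, w j * E j i = 0) → ∀ j, w j = 0)
    (h2 : 2 ≤ Fintype.card J) (hne : (∑ j, ∏ i, (X i : MvPolynomial σ ℂ) ^ E j i) ≠ 0)
    {W : Set (Pt ℂ σ)} (hW : Constr W) :
    ∃ S : Finset (ℤ × ℤ), (∀ q ∈ S, q.1 < 0 ∧ 0 < q.2 ∧
      ∃ p, SF (fun _ : Fin 1 => ∑ j, ∏ i, (X i : MvPolynomial σ ℂ) ^ E j i) p
        ((q.1 : ℂ) / q.2)) ∧
      TS M (((Lu ℂ)⁻¹ : (MK ℂ)ˣ) : MK ℂ) k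
        (∑ j, ∏ i, (X i : MvPolynomial σ ℂ) ^ E j i) W ∈
          ratU (Lu ℂ) (S : Set (ℤ × ℤ)) := by
  classical
  have hv : M.L * (((Lu ℂ)⁻¹ : (MK ℂ)ˣ) : MK ℂ) = 1 := by rw [hL, Units.mul_inv]
  set eJ := Fintype.equivFin J with heJ
  set e := Fintype.equivFin σ with he
  set v : Fin (Fintype.card J) → Fin (Fintype.card σ) → ℕ := fun j i =>
    E (eJ.symm j) (e.symm i) with hvd
  set F : MvPolynomial σ ℂ := ∑ j, ∏ i, (X i : MvPolynomial σ ℂ) ^ E j i with hF
  have hind : Ind v := by
    unfold Ind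
    rw [affineIndependent_iff_of_fintype]
    intro w hw hs j
    rw [Finset.weightedVSub_eq_weightedVSubOfPoint_of_sum_eq_zero _ _ _ hw
      (0 : Fin (Fintype.card σ) → ℚ), Finset.weightedVSubOfPoint_apply] at hs
    have h1 := hE (fun j => w (eJ j)) (by rw [eJ.sum_comp]; exact hw) (fun i => by
      have h3 := congrFun hs (e i)
      rw [Finset.sum_apply, Pi.zero_apply] at h3
      rw [← h3, ← eJ.sum_comp]
      refine Finset.sum_congr rfl fun j' _ => ?_
      rw [hvd]
      simp) (eJ.symm j)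
    rwa [Equiv.apply_symm_apply] at h1
  have hren : F = rename e.symm (spa v fun _ => (1 : ℂ)) := by
    rw [hF]
    unfold spa
    rw [map_sum, ← eJ.symm.sum_comp]
    refine Finset.sum_congr rfl fun j _ => ?_
    rw [map_one, one_mul, map_prod, ← e.symm.prod_comp]
    refine Finset.prod_congr rfl fun i _ => ?_
    rw [map_pow, rename_X]
  obtain ⟨S, hS, hz⟩ := ospa h2 k v hind (fun _ => 1) (fun _ => one_ne_zero)
  have hne' : (spa v fun _ => (1 : ℂ)) ≠ 0 := by
    intro h0
    apply hne
    rw [hren, h0, map_zero]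
  refine ⟨S, fun q hq => ?_, ?_⟩
  · obtain ⟨h3, h4, h5⟩ := hS q hq
    obtain ⟨p, hp⟩ := exists_sf_one _ hne' _ h5
    refine ⟨h3, h4, p ∘ e, ?_⟩
    refine sf_equiv e.symm (Equiv.refl (Fin 1)) (fun _ : Fin 1 => spa v fun _ => (1 : ℂ))
      (fun _ : Fin 1 => F) (fun _ => hren) (p ∘ e) _ ?_
    have h6 : (p ∘ e) ∘ e.symm = p := by
      funext i
      simp
    rw [h6]
    exact hp
  · set e' : Fin (Fintype.card σ + 1) ≃ Option σ :=
      (finSuccEquiv (Fintype.card σ)).trans (Equiv.optionCongr e.symm) with he'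
    have e0 : e' 0 = none := by
      rw [he', Equiv.trans_apply, finSuccEquiv_zero]
      rfl
    have es : ∀ i : Fin (Fintype.card σ), e' i.succ = some (e.symm i) := by
      intro i
      rw [he', Equiv.trans_apply, finSuccEquiv_succ]
      rfl
    have h7 : rename e' (X 0 ^ k * rename Fin.succ (spa v fun _ => (1 : ℂ))) = yk k F := by
      rw [map_mul, map_pow, rename_X, e0, rename_rename, hren]
      unfold yk
      rw [rename_rename]
      congr 2
    set W0 : Set (Pt ℂ (Fin (Fintype.card σ + 1))) := {z | z 0 ≠ 0 ∧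
      (fun o => z (e o).succ) ∈ W} with hW0
    have hW0c : Constr W0 := Constr.and (Constr.eqz (IsPF.coord 0)).compl
      (hW.preimage (fun (z : Pt ℂ (Fin (Fintype.card σ + 1))) (o : σ) => z (e o).succ)
        fun o => IsPF.coord _)
    have h8 := OW_ren M (((Lu ℂ)⁻¹ : (MK ℂ)ˣ) : MK ℂ) e'
      (X 0 ^ k * rename Fin.succ (spa v fun _ => (1 : ℂ))) hW0c
    have h9 : {z : Pt ℂ (Option σ) | (fun i => z (e' i)) ∈ W0} = Wy W := by
      ext z
      constructor
      · rintro ⟨h, h'⟩
        refine ⟨?_, ?_⟩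
        · simp only [e0] at h
          exact h
        · simp only [es, Equiv.symm_apply_apply] at h'
          exact h'
      · rintro ⟨h, h'⟩
        refine ⟨?_, ?_⟩
        · simp only [e0]
          exact h
        · simp only [es, Equiv.symm_apply_apply]
          exact h'
    rw [h7, h9] at h8
    unfold TS
    rw [h8]
    exact hz M (Lu ℂ) hL W0 hW0c fun z hz => hz.1

end

section mdl

variable {M : Meas ℂ (MK ℂ)} (hL : M.L = ((Lu ℂ : (MK ℂ)ˣ) : MK ℂ))
include hL
variable {N T : Type} [Fintype N] [DecidableEq N] [Fintype T] [DecidableEq T]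

/-- **The model polynomials along the fibre over `0`.** -/
theorem mdl_rat (K' : ℕ) (ι : T → N) (hι : Function.Injective ι) (m e : T → ℕ)
    (he : ∀ j, 0 < e j) (ζ : Bool) (k : ℕ) (hk : ζ = true → ∀ j, m j ≤ k)
    (h : Nonempty T ∨ ζ = true) :
    ∃ Q : Finset (ℤ × ℤ), (∀ q ∈ Q, q.1 < 0 ∧ 0 < q.2 ∧ ∃ p : Option N → ℂ, p none = 0 ∧
      SF (fun _ : Fin 1 => mdl ℂ ι m e ζ k) p ((q.1 : ℂ) / q.2)) ∧
      TS M (((Lu ℂ)⁻¹ : (MK ℂ)ˣ) : MK ℂ) K'
        (mdl ℂ ι m e ζ k) (F0 ℂ N) ∈ ratU (Lu ℂ) (Q : Set (ℤ × ℤ)) := by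
  classical
  have hne := mdl_ne ι hι m e he ζ k h
  have hfib : ∀ p : Option N → ℂ, cpt p ∈ F0 ℂ N → p none = 0 := fun p hp =>
    (map_eq_zero _).1 hp
  -- limits of points
  have hlim : ∀ α : ℂ, (∃ p, SF (fun _ : Fin 1 => mdl ℂ ι m e ζ k) p α) →
      ∃ p : Option N → ℂ, p none = 0 ∧ SF (fun _ : Fin 1 => mdl ℂ ι m e ζ k) p α := by
    rintro α ⟨p, hp⟩
    obtain ⟨w, d, hw, hs⟩ := mdl_weights ι hι m e he ζ k hk
    refine ⟨_, ?_, sf_weights _ w d hs hne p α hp⟩
    exact if_neg hw
  cases ζ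
  · -- no pure power
    have hT : Nonempty T := h.resolve_right (by simp)
    have hF : mdl ℂ ι m e false k =
        ∑ j, ∏ o, (X o : MvPolynomial (Option N) ℂ) ^ mexp ι m e j o := by
      unfold mdl
      simp only [mexp_prod]
      simp
    by_cases h2 : 2 ≤ Fintype.card T
    · obtain ⟨S, hS, hz⟩ := sparse_rat hL K' (mexp ι m e) (fun w _ hw j => by
        have h3 := hw (some (ι j))
        rw [Finset.sum_eq_single j] at h3
        · simp only [mexp] at h3
          rw [if_neg (by simp), if_pos trivial, zero_add] at h3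
          exact (mul_eq_zero.1 h3).resolve_right (by exact_mod_cast (he j).ne')
        · intro j' _ hj'
          simp only [mexp]
          rw [if_neg (by simp), if_neg, zero_add, Nat.cast_zero, mul_zero]
          exact fun h => hj' (hι (Option.some_injective _ h).symm)
        · exact fun h => absurd (Finset.mem_univ _) h) h2 (by rw [← hF]; exact hne)
        (constr_F0 (K := ℂ) (N := N))
      rw [← hF] at hS hz
      exact ⟨S, fun q hq => ⟨(hS q hq).1, (hS q hq).2.1, hlim _ (hS q hq).2.2⟩, hz⟩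
    · obtain ⟨j₀⟩ := hT
      have hsub : Subsingleton T := Fintype.card_le_one_iff_subsingleton.1 (by omega)
      have hu : mdl ℂ ι m e false k = X none ^ m j₀ * X (some (ι j₀)) ^ e j₀ := by
        unfold mdl
        rw [Fintype.sum_subsingleton _ j₀]
        simp
      obtain ⟨S, hS, hz⟩ := mon_rat hL (N := N) K' (ι j₀) (m j₀) (e j₀) (he j₀)
      rw [← hu] at hS hz
      exact ⟨S, fun q hq => ⟨(hS q hq).1, (hS q hq).2.1, by
        obtain ⟨p, hp, hp'⟩ := (hS q hq).2.2
        exact ⟨p, hfib p hp, hp'⟩⟩, hz⟩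
  · -- with a pure power
    rcases isEmpty_or_nonempty T with hT | hT
    · have hu : mdl ℂ ι m e true k = X none ^ k := by
        unfold mdl
        rw [Finset.sum_of_isEmpty, zero_add, if_pos rfl]
      obtain ⟨S, hS, hz⟩ := pow_rat hL (N := N) K' k
      rw [← hu] at hS hz
      exact ⟨S, fun q hq => ⟨(hS q hq).1, (hS q hq).2.1, by
        obtain ⟨p, hp, hp'⟩ := (hS q hq).2.2
        exact ⟨p, hfib p hp, hp'⟩⟩, hz⟩
    · set E : Option T → Option N → ℕ := fun o => o.elim (fun i => if i = none then k else 0)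
        (mexp ι m e) with hE
      have hF : mdl ℂ ι m e true k =
          ∑ j, ∏ o, (X o : MvPolynomial (Option N) ℂ) ^ E j o := by
        rw [Fintype.sum_option, add_comm]
        unfold mdl
        congr 1
        · refine Finset.sum_congr rfl fun j _ => ?_
          exact (mexp_prod ι m e j X).symm
        · rw [if_pos rfl, hE]
          simp only [Option.elim, pow_ite, pow_zero, Finset.prod_ite_eq', Finset.mem_univ,
            if_true]
      obtain ⟨S, hS, hz⟩ := sparse_rat hL K' E (fun w hw0 hw => by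
        have hj : ∀ j, w (some j) = 0 := by
          intro j
          have h3 := hw (some (ι j))
          rw [Fintype.sum_option, Finset.sum_eq_single j] at h3
          · simp only [hE, Option.elim, mexp] at h3
            rw [if_neg (by simp), if_neg (by simp), if_pos trivial, Nat.cast_zero, mul_zero,
              zero_add, zero_add] at h3
            exact (mul_eq_zero.1 h3).resolve_right (by exact_mod_cast (he j).ne')
          · intro j' _ hj'
            simp only [hE, Option.elim, mexp]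
            rw [if_neg (by simp), if_neg, zero_add, Nat.cast_zero, mul_zero]
            exact fun h => hj' (hι (Option.some_injective _ h).symm)
          · exact fun h => absurd (Finset.mem_univ _) h
        rw [Fintype.sum_option, Finset.sum_eq_zero fun j _ => hj j, add_zero] at hw0
        rintro (_ | j)
        · exact hw0
        · exact hj j) (by
          rw [Fintype.card_option]
          have := Fintype.card_pos (α := T)
          omega) (by rw [← hF]; exact hne)
        (constr_F0 (K := ℂ) (N := N))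
      rw [← hF] at hS hz
      exact ⟨S, fun q hq => ⟨(hS q hq).1, (hS q hq).2.1, hlim _ (hS q hq).2.2⟩, hz⟩

end mdl

end Pool.Agent.H1.TG
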