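import Pool.Agent.H1.TB.Gen2

set_option autoImplicit false
set_option linter.unusedSectionVars false
set_option linter.unusedVariables false

/-! # Some roots -/

namespace Pool.Agent.H1.TG

open MvPolynomial Pool.Agent.Y229 Pool.Agent.Q57.MC Pool.Agent.Q57.MD
open Pool.Agent.H1.TB

variable {σ : Type} [Fintype σ] [DecidableEq σ]

theorem pderiv_prod_zero {τ : Type} (s : Finset τ) (g : τ → MvPolynomial σ ℂ) (i : σ)
    (h : ∀ j ∈ s, pderiv i (g j) = 0) : pderiv i (∏ j ∈ s, g j) = 0 := by
  classical
  induction s using Finset.induction_on with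
  | empty => rw [Finset.prod_empty, ← C_1, pderiv_C]
  | insert a s ha ih =>
    rw [Finset.prod_insert ha, Derivation.leibniz, h a (Finset.mem_insert_self _ _),
      ih fun j hj => h j (Finset.mem_insert_of_mem hj), smul_zero, smul_zero, add_zero]

theorem sf_mono_fin {c : ℕ} (m : Fin c → ℕ) (i : Fin c) (hi : 0 < m i) :
    SF (fun _ : Fin 1 => ∏ j, (X j : MvPolynomial (Fin c) ℂ) ^ m j) 0 (-1 / (m i : ℂ)) := by
  have h1 := sf_rel_root ({i} : Finset (Fin c)) (Finset.singleton_nonempty i)
    (fun _ : Fin 1 => ∏ j, (X j : MvPolynomial (Fin c) ℂ) ^ m j) (m i) hi (fun _ => ?_)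
    ⟨fun _ => 0, ?_⟩
  · rw [Finset.card_singleton, Nat.cast_one] at h1
    exact h1
  · unfold HT
    have h2 := IsWeightedHomogeneous.prod (Finset.univ : Finset (Fin c))
      (fun j => (X j : MvPolynomial (Fin c) ℂ) ^ m j)
      (fun j => m j • if j ∈ ({i} : Finset (Fin c)) then 1 else 0)
      (w := fun j : Fin c => if j ∈ ({i} : Finset (Fin c)) then 1 else 0) fun j _ =>
        (isWeightedHomogeneous_X ℂ (fun j : Fin c =>
          if j ∈ ({i} : Finset (Fin c)) then 1 else 0) j).pow (m j)
    have h3 : ∑ j, m j • (if j ∈ ({i} : Finset (Fin c)) then 1 else 0) = m i := by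
      simp
    rw [h3] at h2
    exact h2
  · have : Unique {x // x ∈ ({i} : Finset (Fin c))} := ⟨⟨⟨i, Finset.mem_singleton_self i⟩⟩,
      fun x => Subtype.ext (Finset.mem_singleton.1 x.2)⟩
    rw [Matrix.det_unique, Matrix.of_apply]
    have h0 : ((default : {x // x ∈ ({i} : Finset (Fin c))}) : Fin c) = i :=
      Finset.mem_singleton.1 (default : {x // x ∈ ({i} : Finset (Fin c))}).2
    rw [h0]
    intro h2
    have h3 := congrArg (eval fun _ => (1 : ℂ)) h2
    have h4 : pderiv i (∏ j ∈ Finset.univ.erase i, (X j : MvPolynomial (Fin c) ℂ) ^ m j) = 0 := by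
      refine pderiv_prod_zero _ _ _ fun j hj => ?_
      rw [Derivation.leibniz_pow, pderiv_X_of_ne (Finset.ne_of_mem_erase hj)]
      simp
    rw [← Finset.mul_prod_erase _ _ (Finset.mem_univ i), Derivation.leibniz, h4, smul_zero,
      zero_add, Derivation.leibniz_pow, pderiv_X_self] at h3
    simp only [map_mul, map_pow, smul_eq_mul, nsmul_eq_mul, eval_X, one_pow, mul_one,
      map_prod, Finset.prod_const_one, one_mul, map_natCast, map_zero] at h3
    exact absurd h3 (by exact_mod_cast hi.ne')

/-- monomials in some of the variables -/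
theorem sf_mono_some {c : ℕ} (ι : Fin c → σ) (hι : Function.Injective ι) (m : Fin c → ℕ)
    (i : Fin c) (hi : 0 < m i) :
    SF (fun _ : Fin 1 => ∏ j, (X (ι j) : MvPolynomial σ ℂ) ^ m j) 0 (-1 / (m i : ℂ)) := by
  classical
  have hne : (∏ j, (X j : MvPolynomial (Fin c) ℂ) ^ m j) ≠ 0 :=
    Finset.prod_ne_zero_iff.2 fun j _ => pow_ne_zero _ (X_ne_zero j)
  refine sf_pts _ _ hne 0 0 (fun j => MvPowerSeries.X (ι j)) (fun j => ?_) ?_ 1 1 (by simp)
    (by simp) ?_ _ (sf_mono_fin m i hi)
  · exact MvPowerSeries.constantCoeff_X _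
  · rw [Fintype.linearIndependent_iff]
    intro w hw j
    have h1 := congrFun hw (ι j)
    rw [Finset.sum_apply, Finset.sum_eq_single j] at h1
    · rw [Pi.smul_apply, MvPowerSeries.coeff_X, if_pos rfl, smul_eq_mul, mul_one] at h1
      exact h1
    · intro l _ hl
      rw [Pi.smul_apply, MvPowerSeries.coeff_X, if_neg, smul_zero]
      intro h2
      rw [Finsupp.single_left_inj one_ne_zero] at h2
      exact hl (hι h2).symm
    · exact fun h => absurd (Finset.mem_univ _) h
  · rw [one_mul, one_mul, map_prod, map_prod]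
    refine Finset.prod_congr rfl fun j _ => ?_
    rw [map_pow, map_pow, aeval_X, ser_X, Pi.zero_apply, map_zero, add_zero, Pi.zero_apply,
      map_zero, add_zero]

/-- smooth points -/
theorem sf_smooth (f : MvPolynomial σ ℂ) (p : σ → ℂ) (hp : eval p f = 0)
    (i : σ) (hi : eval p (pderiv i f) ≠ 0) : SF (fun _ : Fin 1 => f) p (-1) := by
  classical
  have h0 := sf_mono_fin (c := 1) (fun _ => 1) 0 one_pos
  rw [Nat.cast_one, div_one, Fin.prod_univ_one, pow_one] at h0
  have hcf : MvPowerSeries.coeff (Finsupp.single i 1) (ser p f) = eval p (pderiv i f) := by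
    have key : ∀ g : MvPolynomial σ ℂ, MvPowerSeries.coeff (Finsupp.single i 1) (ser p g) =
        eval p (pderiv i g) := by
      intro g
      induction g using MvPolynomial.induction_on with
      | C a =>
        rw [ser_C, MvPowerSeries.coeff_C, if_neg (by simp), pderiv_C, map_zero]
      | add g h hg hh => rw [map_add, map_add, hg, hh, map_add, map_add]
      | mul_X g j hg =>
        have e1 : MvPowerSeries.coeff (Finsupp.single i 1) (ser p (X j)) =
            eval p (pderiv i (X j)) := by
          rw [ser_X, map_add, MvPowerSeries.coeff_X, MvPowerSeries.coeff_C,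
            if_neg (by simp : ¬ (Finsupp.single i 1 = (0 : σ →₀ ℕ))), add_zero]
          by_cases hij : i = j
          · subst hij
            rw [if_pos rfl, pderiv_X_self, map_one]
          · rw [if_neg, pderiv_X_of_ne (Ne.symm hij), map_zero]
            rw [Finsupp.single_left_inj one_ne_zero]
            exact hij
        rw [map_mul, Pool.Agent.H1.QB.coeff1_mul, hg, ser_cc, ser_cc, e1, Derivation.leibniz,
          smul_eq_mul, smul_eq_mul, map_add, map_mul, map_mul]
        ring
    exact key f
  refine sf_pts f (X 0) (X_ne_zero _) p 0 (fun _ => ser p f) (fun _ => ?_) ?_ 1 1 (by simp)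
    (by simp) ?_ _ h0
  · rw [ser_cc]
    exact hp
  · rw [Fintype.linearIndependent_iff]
    intro w hw j
    have h1 := congrFun hw i
    rw [Finset.sum_apply, Fin.sum_univ_one, Pi.smul_apply, hcf, smul_eq_mul, Pi.zero_apply] at h1
    have h2 : j = 0 := Subsingleton.elim _ _
    rw [h2]
    exact (mul_eq_zero.1 h1).resolve_right hi
  · rw [one_mul, one_mul, aeval_X, Pi.zero_apply, map_zero, add_zero]

end Pool.Agent.H1.TG
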