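import Pool.Agent.H1.TG.Cov
import Pool.Agent.H1.TG.SFs

set_option autoImplicit false
set_option linter.unusedSectionVars false
set_option linter.unusedVariables false

/-! # Smooth points and cones, for the covers -/

namespace Pool.Agent.H1.TG

open MvPolynomial Pool.Agent.W428.MOT Pool.Agent.TH192.MT Pool.Agent.TH192.DT Pool.Agent.Q49.CO
open Pool.Agent.Y229 Pool.Agent.Q57.MC Pool.Agent.Q57.MD
open Pool.Agent.H1.TB

section

variable {σ : Type} [Fintype σ] [DecidableEq σ]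

theorem exists_cpt (z : Pt ℂ σ) : ∃ p : σ → ℂ, cpt p = z := by
  choose p hp using fun i => (IsAlgClosed.algebraMap_bijective_of_isIntegral
    (k := ℂ) (K := AlgebraicClosure ℂ)).2 (z i)
  exact ⟨p, funext hp⟩

theorem aeval_cpt (p : σ → ℂ) (f : MvPolynomial σ ℂ) :
    aeval (cpt p) f = algebraMap ℂ (AlgebraicClosure ℂ) (eval p f) := by
  unfold cpt
  have h1 := MvPolynomial.aeval_algebraMap_apply (AlgebraicClosure ℂ) p f
  refine h1.trans ?_
  rw [← MvPolynomial.coe_aeval_eq_eval]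
  rfl

theorem aeval_cpt_zero (p : σ → ℂ) (f : MvPolynomial σ ℂ) :
    aeval (cpt p) f = 0 ↔ eval p f = 0 := by
  rw [aeval_cpt, map_eq_zero]

/-- homogeneity in some of the variables -/
theorem ht_yk {K : Type} [Field K] (T : Finset σ) (f : MvPolynomial σ K) (d k : ℕ)
    (hf : HT T f d) : HT (T.map Function.Embedding.some) (yk k f) d := by
  unfold HT yk
  have h1 := (isWeightedHomogeneous_X K (fun i : Option σ =>
    if i ∈ T.map Function.Embedding.some then 1 else 0) none).pow k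
  rw [if_neg (by simp), smul_zero] at h1
  have h2 : (rename some f : MvPolynomial (Option σ) K).IsWeightedHomogeneous
      (fun i : Option σ => if i ∈ T.map Function.Embedding.some then 1 else 0) d := by
    intro m hm
    obtain ⟨u, rfl, hu⟩ := coeff_rename_ne_zero some f m hm
    rw [← hf hu]
    rw [Finsupp.weight_apply, Finsupp.weight_apply, Finsupp.sum_mapDomain_index]
    · refine Finsupp.sum_congr fun i _ => ?_
      simp
    · intro i
      rw [zero_smul]
    · intro i a b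
      rw [add_smul]
  have h3 := h1.mul h2
  rw [zero_add] at h3
  exact h3

variable {K : Type} [Field K] {R : Type} [CommRing R] (M : Meas K R) {v : R} (hv : M.L * v = 1)
include hv

/-- **The recursion of the covers.** -/
theorem TS_rel {k : ℕ} (T : Finset σ) (f : MvPolynomial σ K) (d : ℕ) (hf : HT T f d)
    {W : Set (Pt K σ)} (hW : Constr W)
    (hT : ∀ z w : Pt K σ, (∀ i ∉ T, w i = z i) → z ∈ W → w ∈ W) :
    TS M v k f (CT K T ∩ W) = PowerSeries.C (v ^ T.card) * PowerSeries.X ^ d *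
        TS M v k f (W ∩ (CT K T)ᶜ) +
      PowerSeries.C (v ^ T.card) * PowerSeries.X ^ d * TS M v k f (CT K T ∩ W) := by
  have h1 := OW_rel M hv (T.map Function.Embedding.some) (yk k f) d (ht_yk T f d k hf)
    (constr_Wy hW) (fun z w hzw hz => by
      refine ⟨?_, ?_⟩
      · have h2 := hzw none (by simp)
        change w none ≠ 0
        rw [h2]
        exact hz.1
      · refine hT (fun i => z (some i)) (fun i => w (some i)) (fun i hi => hzw (some i) ?_) hz.2
        simpa using hi)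
  have h2 : ∀ z : Pt K (Option σ), z ∈ CT K (T.map Function.Embedding.some) ↔
      (fun i => z (some i)) ∈ CT K T := by
    intro z
    constructor
    · intro h i hi
      exact h (some i) (by simpa using hi)
    · intro h i hi
      obtain ⟨j, hj, rfl⟩ := Finset.mem_map.1 hi
      exact h j hj
  have h3 : CT K (T.map Function.Embedding.some) ∩ Wy W = Wy (CT K T ∩ W) := by
    ext z
    rw [Set.mem_inter_iff, h2]
    constructor
    · rintro ⟨h, h', h''⟩
      exact ⟨h', h, h''⟩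
    · rintro ⟨h', h, h''⟩
      exact ⟨h, h', h''⟩
  have h4 : Wy W ∩ (CT K (T.map Function.Embedding.some))ᶜ = Wy (W ∩ (CT K T)ᶜ) := by
    ext z
    rw [Set.mem_inter_iff, Set.mem_compl_iff, h2]
    constructor
    · rintro ⟨⟨h, h'⟩, h''⟩
      exact ⟨h, h', h''⟩
    · rintro ⟨h, h', h''⟩
      exact ⟨⟨h, h'⟩, h''⟩
  rw [h3, h4, Finset.card_map] at h1
  exact h1

end

section

variable {M : Meas ℂ (MK ℂ)} (hL : M.L = ((Lu ℂ : (MK ℂ)ˣ) : MK ℂ))
variable {σ : Type} [Fintype σ] [DecidableEq σ]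
include hL

/-- cones -/
theorem ts_cone {k : ℕ} (T : Finset σ) (f : MvPolynomial σ ℂ) (d : ℕ) (hd : 0 < d)
    (hf : HT T f d) {W : Set (Pt ℂ σ)} (hW : Constr W)
    (hT : ∀ z w : Pt ℂ σ, (∀ i ∉ T, w i = z i) → z ∈ W → w ∈ W) (D : Set (ℤ × ℤ))
    (hD : (-(T.card : ℤ), (d : ℤ)) ∈ D)
    (h' : TS M (((Lu ℂ)⁻¹ : (MK ℂ)ˣ) : MK ℂ) k f (W ∩ (CT ℂ T)ᶜ) ∈ ratU (Lu ℂ) D) :
    TS M (((Lu ℂ)⁻¹ : (MK ℂ)ˣ) : MK ℂ) k f (CT ℂ T ∩ W) ∈ ratU (Lu ℂ) D := by
  have hv : M.L * (((Lu ℂ)⁻¹ : (MK ℂ)ˣ) : MK ℂ) = 1 := by rw [hL, Units.mul_inv]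
  refine geo_solve (Lu ℂ) (ν := T.card) (N := d) hd hD _ _ ?_ (TS_rel M hv T f d hf hW hT)
  exact Subalgebra.mul_mem _ (Subalgebra.mul_mem _ (rat_C _ _)
    (Subalgebra.pow_mem _ (rat_X _) _)) h'

/-- **Smooth points.** -/
theorem ts_smooth (k : ℕ) (f : MvPolynomial σ ℂ) (W : Set (Pt ℂ σ)) (hW : Constr W)
    (hs : ∀ p : σ → ℂ, cpt p ∈ W → eval p f = 0 → ∃ i, eval p (pderiv i f) ≠ 0) :
    ∃ Q : Finset (ℤ × ℤ), (∀ q ∈ Q, q.1 < 0 ∧ 0 < q.2 ∧ ∃ p, cpt p ∈ W ∧
      SF (fun _ : Fin 1 => f) p ((q.1 : ℂ) / q.2)) ∧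
      TS M (((Lu ℂ)⁻¹ : (MK ℂ)ˣ) : MK ℂ) k f W ∈ ratU (Lu ℂ) (Q : Set (ℤ × ℤ)) := by
  classical
  have hv : M.L * (((Lu ℂ)⁻¹ : (MK ℂ)ˣ) : MK ℂ) = 1 := by rw [hL, Units.mul_inv]
  by_cases hz : ∃ p : σ → ℂ, cpt p ∈ W ∧ eval p f = 0
  · obtain ⟨p, hpW, hp⟩ := hz
    obtain ⟨i, hi⟩ := hs p hpW hp
    refine ⟨{(-1, 1)}, fun q hq => ?_, ?_⟩
    · rw [Finset.mem_singleton.1 hq]
      refine ⟨by norm_num, by norm_num, p, hpW, ?_⟩
      have h1 : (((-1 : ℤ) : ℂ) / ((1 : ℤ) : ℂ)) = -1 := by norm_num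
      rw [h1]
      exact sf_smooth f p hp i hi
    · have hZ : Constr {z : Pt ℂ σ | aeval z f = 0} := Constr.zero f
      have h1 : W = (W ∩ {z | aeval z f = 0}) ∪ (W ∩ {z | aeval z f = 0}ᶜ) :=
        (Set.inter_union_compl _ _).symm
      rw [h1, TS_add M f (hW.inter hZ) (hW.inter hZ.compl)
        (Set.disjoint_left.2 fun z h h' => h'.2 h.2)]
      refine Subalgebra.add_mem _ ?_ ?_
      · have hI : Indep (fun _ : Fin 1 => yk k f) (Wy (W ∩ {z : Pt ℂ σ | aeval z f = 0})) := by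
          rintro z ⟨hz0, hzW, hzf⟩
          have hzf' : aeval (fun i => z (some i)) f = 0 := hzf
          refine ⟨fun _ => ?_, fun l hl t => ?_⟩
          · rw [aeval_yk, hzf', mul_zero]
          · obtain ⟨q, hq⟩ := exists_cpt (fun i => z (some i))
            rw [← hq] at hzf' hzW
            obtain ⟨j, hj⟩ := hs q hzW ((aeval_cpt_zero q f).1 hzf')
            have h2 := hl (some j)
            rw [Fin.sum_univ_one] at h2
            have h3 : pderiv (some j) (yk k f) = yk k (pderiv j f) := by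
              unfold yk
              rw [Derivation.leibniz, pderiv_rename (Option.some_injective σ),
                Derivation.leibniz_pow, pderiv_X_of_ne (Option.some_ne_none j).symm, smul_zero,
                smul_zero, smul_zero, add_zero, smul_eq_mul]
            rw [h3, aeval_yk, ← hq, aeval_cpt] at h2
            have h4 : t = 0 := Subsingleton.elim _ _
            rw [h4]
            refine (mul_eq_zero.1 h2).resolve_right (mul_ne_zero (pow_ne_zero _ hz0) ?_)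
            exact (map_ne_zero _).2 hj
        refine geo_solve (Lu ℂ) (ν := 1) (N := 1) one_pos ?_ _ _ ?_
          (OW_smooth M hv (yk k f) (constr_Wy (hW.inter hZ)) hI)
        · simp
        · exact Subalgebra.add_mem _ (rat_C _ _) (Subalgebra.mul_mem _ (rat_C _ _) (rat_X _))
      · obtain ⟨c, hc⟩ := TS_off M (v := (((Lu ℂ)⁻¹ : (MK ℂ)ˣ) : MK ℂ)) (k := k) f
          (W := W ∩ {z | aeval z f = 0}ᶜ) fun w hw => hw.2
        rw [hc]
        exact rat_C _ _
  · refine ⟨∅, fun q hq => absurd hq (Finset.notMem_empty q), ?_⟩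
    obtain ⟨c, hc⟩ := TS_off M (v := (((Lu ℂ)⁻¹ : (MK ℂ)ˣ) : MK ℂ)) (k := k) f
      (W := W) fun w hw h0 => by
        obtain ⟨q, rfl⟩ := exists_cpt w
        exact hz ⟨q, hw, (aeval_cpt_zero q f).1 h0⟩
    rw [hc]
    exact rat_C _ _

end

end Pool.Agent.H1.TG
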