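import Pool.Agent.H1.TG.Cone
import Pool.Agent.H1.VS.Ind

set_option autoImplicit false
set_option linter.unusedSectionVars false
set_option linter.unusedVariables false

/-! # The series of a nondegenerate polynomial, away from a coordinate hyperplane -/

namespace Pool.Agent.H1.TG

open MvPolynomial
open Pool.Agent.W428.MOT Pool.Agent.W749.MT Pool.Agent.W425.MM.Mot
open Pool.Agent.W375.MG (Good GB0 GB1 constr_W constr_GB1 good_one good_units JetG)
open Pool.Agent.TH216.MC (b1_rel b0_rel b0_empty)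
open Pool.Agent.TH216.MF (frc frc_le free_step cser cf Psi Omg Gd fac IsPol KRelJ RecJ formal ratR
  inRat_J FR evR geoR_mul)
open Pool.Agent.W426.SM (gord ford IsRay face)
open Pool.Agent.H1.VS (fr_coeff)

section main

variable {K : Type} [Field K] {n r : ℕ} {R : Type} [CommRing R]

/-- **Only the rays which are not bad.** -/
theorem o_bad {n r : ℕ} (m : Fin r → Fin n → ℕ) (hr0 : 0 < r) (i0 : Fin n) (Bad : ℚ → Prop)
    (hB : ∀ J : Finset (Fin n), i0 ∉ J → ∀ q : ℕ, 2 ≤ q → ∀ e : Finset (Fin r) → ℂ,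
      KRelJ q m J e → ∀ T0 : ℂ, T0 ≠ 0 → ∀ σ : ℚ, Bad σ →
      Real.log ‖T0‖ / Real.log q = (σ : ℝ) → RecJ q m e J T0) :
    ∃ S : Finset (ℤ × ℤ),
      (∀ p ∈ S, p = (-1, 1) ∨ ∃ a : Fin n → ℕ, IsRay m a ∧ 0 < gord m a ∧
        ¬ Bad (((∑ i, a i : ℕ) : ℚ) / gord m a) ∧
        p = (-((∑ i, a i : ℕ) : ℤ), (gord m a : ℤ))) ∧
      ∀ (K : Type) [Field K] [CharZero K] (c : Fin r → K), NonG m c → (∀ j, c j ≠ 0) →
      ∀ {R : Type} [CommRing R] (M : Meas K R) (u : Rˣ), M.L = (u : R) →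
      ∀ (W : Set (Pt K (Fin n))), Constr W → (∀ z ∈ W, z i0 ≠ 0) →
        OW M ((u⁻¹ : Rˣ) : R) (sp 0 m c 1) W ∈ ratR u (S : Set (ℤ × ℤ)) := by
  classical
  have hFree : S_Free := Pool.Agent.W417.MT.Free.main
  have hSub : S_Sub := Pool.Agent.W21.MTSub.main
  have hTay : S_Tay := Pool.Agent.W417.MT.Tay.main
  choose l hl hG using fun J : {J : Finset (Fin n) // i0 ∉ J} =>
    formal hr0 m J Bad (hB J J.2)
  set S : Finset (ℤ × ℤ) := insert (-1, 1)
    (Finset.univ.biUnion fun J : {J : Finset (Fin n) // i0 ∉ J} =>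
    (l J).toFinset.image fun a => (-((∑ i, a i : ℕ) : ℤ), (gord m a : ℤ))) with hS
  have hS1 : ((-1 : ℤ), (1 : ℤ)) ∈ S := Finset.mem_insert_self _ _
  have hS2 : ∀ J, ∀ a ∈ l J, (-((∑ i, a i : ℕ) : ℤ), (gord m a : ℤ)) ∈ S :=
    fun J a ha => Finset.mem_insert_of_mem (Finset.mem_biUnion.2 ⟨J, Finset.mem_univ _,
      Finset.mem_image.2 ⟨a, List.mem_toFinset.2 ha, rfl⟩⟩)
  refine ⟨S, fun p hp => ?_, ?_⟩
  · rcases Finset.mem_insert.1 hp with rfl | hp
    · exact Or.inl rfl
    · right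
      obtain ⟨J, -, hp⟩ := Finset.mem_biUnion.1 hp
      obtain ⟨a, ha, rfl⟩ := Finset.mem_image.1 hp
      obtain ⟨ha1, ha2, ha3⟩ := hl J a (List.mem_toFinset.1 ha)
      exact ⟨a, ha1, ha2, ha3, rfl⟩
  · intro K _ _ c hNon hc R _ M u hL W hW h0
    set Y : R := ((u⁻¹ : Rˣ) : R) with hY
    have hv : M.L * Y = 1 := by rw [hL, Units.mul_inv]
    set f : MvPolynomial (Fin n) K := sp 0 m c 1 with hf
    have hE : Good ({1} : Set (AlgebraicClosure K)) := good_one
    set b0 : Finset (Fin n) → Finset (Fin r) → R := fun J τ =>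
      M.χ _ (GB0 0 m c 1 W {1} J τ) with hb0
    set b1 : Finset (Fin n) → Finset (Fin r) → R := fun J τ =>
      M.χ _ (GB1 0 m c 1 W {1} J τ) with hb1
    have hmem : ∀ J, FR u m J (b0 J) (b1 J) ∈ ratR u (S : Set (ℤ × ℤ)) := by
      intro J
      by_cases hJ : i0 ∈ J
      · have e0 : b0 J = fun _ => 0 := by
          funext τ
          have : GB0 0 m c 1 W {1} J τ = ∅ := by
            rw [Set.eq_empty_iff_forall_notMem]
            rintro z ⟨h, -⟩
            exact h0 _ h (if_pos hJ)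
          simp only [hb0]
          rw [this, χ_empty]
        have e1 : b1 J = fun _ => 0 := by
          funext τ
          have : GB1 0 m c 1 W {1} J τ = ∅ := by
            rw [Set.eq_empty_iff_forall_notMem]
            rintro z ⟨h, -⟩
            exact h0 _ h (if_pos hJ)
          simp only [hb1]
          rw [this, χ_empty]
        rw [e0, e1]
        have : FR u m J (fun _ => (0 : R)) (fun _ => 0) = 0 := by
          unfold FR
          refine Finset.sum_eq_zero fun τ _ => ?_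
          simp
        rw [this]
        exact Subalgebra.zero_mem _
      · refine inRat_J u hS1 m J (l ⟨J, hJ⟩) (fun a ha => ⟨(hl ⟨J, hJ⟩ a ha).2.1,
          hS2 ⟨J, hJ⟩ a ha⟩) (hG ⟨J, hJ⟩)
          (M.χ _ (GB1 0 m c 1 W {1} J ∅)) (fun _ => True) (fun _ _ _ _ => trivial)
          (fun _ h => absurd trivial h) (b0 J) (b1 J) (b0_empty M m c hE J) rfl ?_ ?_
        · intro i hi j0 hj0 τ hτ _
          rw [← hL]
          exact b0_rel hFree hSub M m c hc hW hE J i hi j0 hj0 τ hτ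
        · intro i hi j0 hj0 τ hτ _
          rw [← hL]
          exact b1_rel hFree hSub M m c hc hW hE J i hi j0 hj0 τ hτ
    set F : PowerSeries R := ∑ J : Finset (Fin n), FR u m J (b0 J) (b1 J) with hF
    have hFm : F ∈ ratR u (S : Set (ℤ × ℤ)) := (ratR u (S : Set (ℤ × ℤ))).sum_mem fun J _ => hmem J
    have hid : OW M Y f W = PowerSeries.C (Y ^ n) * F +
        PowerSeries.C (ovol M Y f W 0 - Y ^ n * PowerSeries.coeff 0 F) := by
      ext N
      rw [map_add, PowerSeries.coeff_C_mul, coeff_OW, PowerSeries.coeff_C]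
      rcases Nat.eq_zero_or_pos N with rfl | hN
      · rw [if_pos rfl]
        ring
      · rw [if_neg hN.ne', add_zero]
        have h6 := Pool.Agent.W425.MM.Mot.sum hFree hSub hTay M 0 m c 1 hW hE hNon
          one_pos Y hv N hN
        rw [hF, map_sum, Finset.sum_congr rfl fun J _ => fr_coeff u M hL m J (b0 J) (b1 J) hr0 N hN,
          ← h6]
        unfold ovol
        rw [Fintype.card_fin, mul_add, mul_one, pow_add]
        change M.χ _ (JetG f W {1} N) * _ = _
        ring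
    rw [hid]
    exact Subalgebra.add_mem _ (Subalgebra.mul_mem _ (Pool.Agent.TH216.MF.CR_mem u _ _) hFm)
      (Pool.Agent.TH216.MF.CR_mem u _ _)

end main

end Pool.Agent.H1.TG
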